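import Pool.Agent.W198.TC.BlockC

open Complex Filter Topology Set MeasureTheory

namespace TC

lemma om_symm (τ H g : ℝ) : om τ H g = om g H τ := by
  unfold om
  rw [show (g - τ) ^ 2 = (τ - g) ^ 2 by ring]

lemma om_interval {H g a b dd : ℝ} (hH : 0 < H) (hd : 0 ≤ dd) (hab : a ≤ b) (ha : a + dd ≤ g)
    (hb : g + dd ≤ b) :
    Real.sqrt (2 * Real.pi) * H * (1 - Real.sqrt 2 * Real.exp (-(dd ^ 2) / (4 * H ^ 2))) ≤
      ∫ τ in a..b, om τ H g := by
  simp_rw [om_symm _ H g]
  have hH2 : 0 < Real.sqrt 2 * H := by positivity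
  have i1 := om_integrable g H hH
  have i2 := (om_integrable g (Real.sqrt 2 * H) hH2).const_mul (Real.exp (-(dd ^ 2) / (4 * H ^ 2)))
  have e : Real.sqrt (2 * Real.pi) * H * (1 - Real.sqrt 2 * Real.exp (-(dd ^ 2) / (4 * H ^ 2))) =
      ∫ τ, (om g H τ - Real.exp (-(dd ^ 2) / (4 * H ^ 2)) * om g (Real.sqrt 2 * H) τ) := by
    rw [integral_sub i1 i2, integral_const_mul, om_integral g H hH, om_integral g _ hH2]
    ring
  rw [e, intervalIntegral.integral_of_le hab, ← integral_indicator measurableSet_Ioc]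
  apply integral_mono (i1.sub i2) (i1.indicator measurableSet_Ioc)
  intro τ
  show om g H τ - Real.exp (-(dd ^ 2) / (4 * H ^ 2)) * om g (Real.sqrt 2 * H) τ ≤ _
  by_cases h : τ ∈ Ioc a b
  · rw [indicator_of_mem h]
    have := om_pos g (Real.sqrt 2 * H) τ
    have h2 := Real.exp_pos (-(dd ^ 2) / (4 * H ^ 2))
    have : 0 ≤ Real.exp (-(dd ^ 2) / (4 * H ^ 2)) * om g (Real.sqrt 2 * H) τ := by positivity
    linarith
  · rw [indicator_of_notMem h]
    have hfar : dd ≤ |τ - g| := by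
      rw [mem_Ioc, not_and_or, not_lt, not_le] at h
      rcases h with h | h
      · have : dd ≤ -(τ - g) := by linarith
        exact this.trans (neg_le_abs _)
      · have : dd ≤ τ - g := by linarith
        exact this.trans (le_abs_self _)
    have := om_far hH hd hfar
    linarith

lemma adm_sq_int {b : ℝ} {h : ℝ → ℝ} (ha : Adm b h) :
    IntervalIntegrable (fun ξ => ξ * (h ξ) ^ 2) volume 0 1 := by
  obtain ⟨B, hB⟩ := ha.bdd
  have h1 : IntervalIntegrable (fun ξ : ℝ => |ξ| * B ^ 2) volume 0 1 := by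
    apply Continuous.intervalIntegrable
    fun_prop
  refine h1.mono_fun (measurable_id.mul (ha.meas.pow_const 2)).aestronglyMeasurable
    (Eventually.of_forall fun ξ => ?_)
  show ‖ξ * (h ξ) ^ 2‖ ≤ ‖|ξ| * B ^ 2‖
  rw [norm_mul, norm_mul, Real.norm_eq_abs, Real.norm_eq_abs, Real.norm_eq_abs, Real.norm_eq_abs,
    abs_abs, abs_of_nonneg (sq_nonneg (h ξ)), abs_of_nonneg (sq_nonneg B)]
  apply mul_le_mul_of_nonneg_left _ (abs_nonneg _)
  rw [← sq_abs (h ξ)]
  exact pow_le_pow_left₀ (abs_nonneg _) (hB ξ) 2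

lemma adm_cs {b : ℝ} {h : ℝ → ℝ} (ha : Adm b h) :
    2 * (∫ ξ in (0 : ℝ)..1, ξ * h ξ) ^ 2 ≤ ∫ ξ in (0 : ℝ)..1, ξ * (h ξ) ^ 2 := by
  set I := ∫ ξ in (0 : ℝ)..1, ξ * h ξ with hI
  have i1 : IntervalIntegrable (fun ξ => ξ * h ξ) volume 0 1 := by
    have := adm_int ha (f := fun ξ => ξ) continuous_id
    simpa only [mul_comm] using this
  have i2 := adm_sq_int ha
  have i3 : IntervalIntegrable (fun ξ : ℝ => (2 * I) ^ 2 * ξ) volume 0 1 :=
    (by fun_prop : Continuous fun ξ : ℝ => (2 * I) ^ 2 * ξ).intervalIntegrable _ _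
  have h0 : 0 ≤ ∫ ξ in (0 : ℝ)..1, (ξ * (h ξ) ^ 2 - 4 * I * (ξ * h ξ) + (2 * I) ^ 2 * ξ) := by
    apply intervalIntegral.integral_nonneg zero_le_one
    intro ξ hξ
    have : ξ * (h ξ) ^ 2 - 4 * I * (ξ * h ξ) + (2 * I) ^ 2 * ξ = ξ * (h ξ - 2 * I) ^ 2 := by ring
    rw [this]
    exact mul_nonneg hξ.1 (sq_nonneg _)
  rw [intervalIntegral.integral_add (i2.sub (i1.const_mul _)) i3, intervalIntegral.integral_sub i2
    (i1.const_mul _), intervalIntegral.integral_const_mul, intervalIntegral.integral_const_mul,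
    integral_id, ← hI] at h0
  nlinarith

lemma VV_nonneg {J : ℕ} (ct : Cert J) : 0 ≤ ct.VV := by
  unfold Cert.VV
  apply Finset.sum_nonneg
  intro j _
  apply div_nonneg _ (ct.w0 j).le
  have h1 := adm_cs (ct.ad₁ j)
  have h2 := adm_cs (ct.ad₂ j)
  unfold Cert.V Cert.S
  nlinarith [sq_nonneg ((∫ ξ in (0 : ℝ)..1, ξ * ct.h₁ j ξ) - ∫ ξ in (0 : ℝ)..1, ξ * ct.h₂ j ξ)]

theorem block (hDM : S_DM) (hc : S_COEF) : S_BLOCK := by
  intro J ct x Q s κ Φ' hx hQ0 hQ hb hκ hΦ'
  -- replace Φ' by a nonnegative function vanishing at 0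
  set Φ : ℕ → ℝ := fun k => if k = 0 then 0 else max 0 (Φ' k) with hΦdef
  have hΦ0 : ∀ k, 0 ≤ Φ k := by
    intro k
    simp only [hΦdef]
    split_ifs
    · exact le_rfl
    · exact le_max_left _ _
  have hΦ : ∀ k : ℕ, Φ k * κ ≤ (max 0 (k * Q - (ct.E - s))) ^ 2 := by
    intro k
    simp only [hΦdef]
    split_ifs with h
    · rw [zero_mul]; positivity
    · rcases le_total 0 (Φ' k) with h1 | h1
      · rw [max_eq_right h1]
        exact hΦ' k (Nat.one_le_iff_ne_zero.2 h)
      · rw [max_eq_left h1, zero_mul]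
        positivity
  intro C δ hC hδ
  set U := ct.VV + s ^ 2 + δ * κ / 2 with hU
  have hlt : Kf ct s 0 < U := by
    rw [Kf_zero, hU]
    have : 0 < δ * κ / 2 := by positivity
    linarith
  obtain ⟨ε, hε, hε1, hKε⟩ := exists_eps (Kf_cont ct s) hlt
  refine ⟨1 - ε / 32, ?_⟩
  have k1 := tau_bound hDM hc ct x Q s κ Φ hQ0 hQ hb hΦ C ε hC hε hε1
  have k2 : ∀ᶠ T : ℝ in atTop, 2 * T ^ (1 - ε / 16) ≤ T ^ (1 - ε / 32) := by
    have h := (tendsto_rpow_atTop (show 0 < ε / 32 by positivity)).eventually_ge_atTop 2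
    filter_upwards [h, eventually_gt_atTop 0] with T hT hT0
    calc 2 * T ^ (1 - ε / 16) ≤ T ^ (ε / 32) * T ^ (1 - ε / 16) := by gcongr
      _ = T ^ (1 - ε / 32) := by
        rw [← Real.rpow_add hT0]
        congr 1
        ring
  have k3 : ∀ᶠ T : ℝ in atTop, Real.log T ≤ T ^ (1 - ε / 32) := by
    have h := (isLittleO_log_rpow_atTop (r := 1 - ε / 32) (by linarith)).bound one_pos
    filter_upwards [h, eventually_ge_atTop 1] with T hT hT1
    rwa [one_mul, Real.norm_eq_abs, Real.norm_of_nonneg (by positivity),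
      abs_of_nonneg (Real.log_nonneg hT1)] at hT
  have k4 : ∀ᶠ T : ℝ in atTop, 2 * T ^ (1 - ε / 16) ≤ T := by
    have h := (tendsto_rpow_atTop (show 0 < ε / 16 by positivity)).eventually_ge_atTop 2
    filter_upwards [h, eventually_gt_atTop 0] with T hT hT0
    calc 2 * T ^ (1 - ε / 16) ≤ T ^ (ε / 16) * T ^ (1 - ε / 16) := by gcongr
      _ = T := by
        rw [← Real.rpow_add hT0]
        conv_rhs => rw [← Real.rpow_one T]
        congr 1
        ring
  have k5 := ev_exp (2 * (|U| + δ * κ / 2)) 0 (ε / 8) (1 / 4) (δ * κ / 2) (by positivity)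
    (by norm_num) (by positivity)
  have k5' := ev_exp 2 0 (ε / 8) (1 / 4) (1 / 2) (by positivity) (by norm_num) (by norm_num)
  obtain ⟨T1, hT1⟩ := eventually_atTop.1 ((((((k1.and k2).and k3).and k4).and k5).and k5').and
    (eventually_gt_atTop 1))
  refine ⟨T1, by linarith, by linarith, fun T hT Z m hE r hr0 hr => ?_⟩
  obtain ⟨⟨⟨⟨⟨⟨h1, h2⟩, h3⟩, h4⟩, h5⟩, h5'⟩, h6⟩ := hT1 T hT
  have hT0 : 0 < T := by linarith
  have hℓ0 : 0 < Real.log T := Real.log_pos h6
  set F := Z.filter (fun g => T + T ^ (1 - ε / 32) ≤ g ∧ g ≤ 2 * T - T ^ (1 - ε / 32)) with hF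
  have hFZ : F ⊆ Z := Finset.filter_subset _ _
  have hFr : ∀ g ∈ F, T + Real.log T ≤ g ∧ g ≤ 2 * T - Real.log T := by
    intro g hg
    have := (Finset.mem_filter.1 hg).2
    constructor <;> linarith [this.1, this.2]
  set H := T ^ (1 - ε / 8) with hH
  have hH0 : 0 < H := by positivity
  set a := T + T ^ (1 - ε / 16) with ha
  set b := 2 * T - T ^ (1 - ε / 16) with hbb
  have hab : a ≤ b := by rw [ha, hbb]; linarith
  have hdd : 0 < T ^ (1 - ε / 16) := by positivity
  set w := Real.sqrt 2 * Real.exp (-((T ^ (1 - ε / 16)) ^ 2) / (4 * H ^ 2)) with hw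
  have hw0 : 0 ≤ w := by positivity
  have hpi := Real.pi_pos
  have hwe : w ≤ 2 * Real.exp (-(1 / 4 * T ^ (ε / 8))) := by
    have e1 : -((T ^ (1 - ε / 16)) ^ 2) / (4 * H ^ 2) = -(1 / 4 * T ^ (ε / 8)) := by
      have e2 : (T ^ (1 - ε / 16)) ^ 2 / H ^ 2 = T ^ (ε / 8) := by
        rw [hH, ← Real.rpow_natCast, ← Real.rpow_natCast, ← Real.rpow_mul hT0.le,
          ← Real.rpow_mul hT0.le, ← Real.rpow_sub hT0]
        congr 1
        push_cast
        ring
      rw [← e2]
      field_simp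
    rw [hw, e1]
    apply mul_le_mul_of_nonneg_right _ (Real.exp_pos _).le
    rw [Real.sqrt_le_left (by norm_num)]
    norm_num
  rw [pow_zero, mul_one] at h5 h5'
  have hw1 : w ≤ 1 / 2 := hwe.trans h5'
  have hwU : w * (|U| + δ * κ / 2) ≤ δ * κ / 2 := by
    have hpos : 0 ≤ |U| + δ * κ / 2 := by positivity
    calc w * (|U| + δ * κ / 2) ≤ 2 * Real.exp (-(1 / 4 * T ^ (ε / 8))) * (|U| + δ * κ / 2) := by
          gcongr
      _ = 2 * (|U| + δ * κ / 2) * Real.exp (-(1 / 4 * T ^ (ε / 8))) := by ring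
      _ ≤ _ := h5
  -- lower bound for the integral over τ
  set W := Real.sqrt (2 * Real.pi) * H with hW
  have hW0 : 0 < W := by positivity
  set S0 := ∑ g ∈ F, (m g : ℝ) * (Φ (kk Z m r g) * κ) with hSg
  have hterm : ∀ g ∈ F, 0 ≤ (m g : ℝ) * (Φ (kk Z m r g) * κ) := fun g _ =>
    mul_nonneg (Nat.cast_nonneg _) (mul_nonneg (hΦ0 _) hκ.le)
  have hS0 : 0 ≤ S0 := Finset.sum_nonneg hterm
  have low : W * (1 - w) * S0 ≤ ∫ τ in a..b, ∑ g ∈ F, ((m g : ℝ) * (Φ (kk Z m r g) * κ)) *
      om τ H g := by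
    rw [intervalIntegral.integral_finsetSum]
    · rw [hSg, Finset.mul_sum]
      apply Finset.sum_le_sum
      intro g hg
      have hg2 := (Finset.mem_filter.1 hg).2
      rw [intervalIntegral.integral_const_mul, mul_comm]
      apply mul_le_mul_of_nonneg_left _ (hterm g hg)
      exact om_interval hH0 hdd.le hab (by rw [ha]; linarith [hg2.1])
        (by rw [hbb]; linarith [hg2.2])
    · intro g _
      apply Continuous.intervalIntegrable
      unfold om
      fun_prop
  have up : (∫ τ in a..b, ∑ g ∈ F, ((m g : ℝ) * (Φ (kk Z m r g) * κ)) * om τ H g) ≤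
      (b - a) * (W * (Real.log T / (2 * Real.pi)) * Kf ct s ε) := by
    have hcont : Continuous fun τ => ∑ g ∈ F, ((m g : ℝ) * (Φ (kk Z m r g) * κ)) * om τ H g := by
      unfold om
      fun_prop
    have := intervalIntegral.integral_mono_on (μ := volume) hab (hcont.intervalIntegrable a b)
      ((continuous_const : Continuous fun _ : ℝ => W * (Real.log T / (2 * Real.pi)) *
        Kf ct s ε).intervalIntegrable a b) (fun τ hτ =>
        h1 τ Z m hE hτ.1 hτ.2 r hr0 hr F hFZ hFr)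
    rw [intervalIntegral.integral_const, smul_eq_mul] at this
    exact this
  have hL0 : 0 < Real.log T / (2 * Real.pi) := by positivity
  -- Kf is nonnegative here
  have hKU : Kf ct s ε ≤ U := hKε.le
  have hU0 : 0 ≤ Kf ct s ε ∨ S0 = 0 := by
    by_contra hneg
    rw [not_or, not_le] at hneg
    have hpos : 0 < S0 := lt_of_le_of_ne hS0 (Ne.symm hneg.2)
    have q1 : 0 < W * (1 - w) * S0 := by
      have : 0 < 1 - w := by linarith
      positivity
    have q2 : (b - a) * (W * (Real.log T / (2 * Real.pi)) * Kf ct s ε) ≤ 0 := by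
      apply mul_nonpos_of_nonneg_of_nonpos (by linarith)
      exact mul_nonpos_of_nonneg_of_nonpos (by positivity) hneg.1.le
    linarith
  have hmain : S0 ≤ T * (Real.log T / (2 * Real.pi)) * (U + δ * κ / 2) := by
    rcases hU0 with hK0 | h0
    · have hU00 : 0 ≤ U := hK0.trans hKU
      rw [abs_of_nonneg hU00] at hwU
      have q1 : (b - a) * (W * (Real.log T / (2 * Real.pi)) * Kf ct s ε) ≤
          T * (W * (Real.log T / (2 * Real.pi)) * U) := by
        have hba : b - a ≤ T := by rw [ha, hbb]; linarith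
        have hba0 : 0 ≤ b - a := by linarith
        gcongr
      have q2 : W * ((1 - w) * S0) ≤ W * (T * (Real.log T / (2 * Real.pi)) * U) := by
        calc W * ((1 - w) * S0) = W * (1 - w) * S0 := by ring
          _ ≤ _ := low.trans (up.trans q1)
          _ = _ := by ring
      have q3 := le_of_mul_le_mul_left q2 hW0
      have q4 : U ≤ (1 - w) * (U + δ * κ / 2) := by linarith
      have q5 : (1 - w) * S0 ≤ (1 - w) * (T * (Real.log T / (2 * Real.pi)) * (U + δ * κ / 2)) := by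
        refine q3.trans ?_
        have : 0 ≤ T * (Real.log T / (2 * Real.pi)) := by positivity
        have q6 := mul_le_mul_of_nonneg_left q4 this
        linarith
      exact le_of_mul_le_mul_left q5 (by linarith)
    · rw [h0]
      have : 0 ≤ U + δ * κ / 2 := by
        by_contra hcon
        push Not at hcon
        have hnn : 0 ≤ ct.VV + s ^ 2 := add_nonneg (VV_nonneg ct) (sq_nonneg _)
        have : 0 < δ * κ / 2 := by positivity
        rw [hU] at hcon
        linarith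
      positivity
  -- conclusion
  have hfin : ∑ g ∈ F, (m g : ℝ) * Φ' (kk Z m r g) ≤ S0 / κ := by
    rw [hSg, Finset.sum_div]
    apply Finset.sum_le_sum
    intro g hg
    rw [← mul_assoc, mul_div_cancel_right₀ _ hκ.ne']
    apply mul_le_mul_of_nonneg_left _ (Nat.cast_nonneg _)
    have hk : kk Z m r g ≠ 0 := by
      have hgZ := hFZ hg
      have h7 : g ∈ Z.filter (fun g' => |g' - g| ≤ r) :=
        Finset.mem_filter.2 ⟨hgZ, by rw [sub_self, abs_zero]; exact hr0⟩
      have h8 : m g ≤ kk Z m r g := Finset.single_le_sum (f := m) (fun _ _ => Nat.zero_le _) h7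
      have := hE.one g hgZ
      omega
    simp only [hΦdef]
    rw [if_neg hk]
    exact le_max_right _ _
  refine hfin.trans ?_
  rw [div_le_iff₀ hκ]
  refine hmain.trans (le_of_eq ?_)
  rw [hU]
  field_simp
  ring

end TC
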