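import Pool.Agent.W198.TC.Defs

open Complex Filter Topology Set MeasureTheory

namespace TC

/-- piecewise function with pieces `f k` on `[c k, c (k+1))`, `k < K` -/
noncomputable def pw (c : ℕ → ℝ) (f : ℕ → ℝ → ℝ) (K : ℕ) (ξ : ℝ) : ℝ :=
  ∑ k ∈ Finset.range K, (Set.Ico (c k) (c (k + 1))).indicator (f k) ξ

/-- ADM: piecewise continuous functions are admissible -/
def S_ADM : Prop := ∀ (c : ℕ → ℝ) (f : ℕ → ℝ → ℝ) (K : ℕ), 1 ≤ K → StrictMono c → c 0 = 0 →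
  c K ≤ 1 → (∀ k, Continuous (f k)) → Adm (c K) (pw c f K)

/-- PWI: integrals of piecewise functions -/
def S_PWI : Prop := ∀ (c : ℕ → ℝ) (f : ℕ → ℝ → ℝ) (K : ℕ), StrictMono c → c 0 = 0 →
  c K ≤ 1 → (∀ k, Continuous (f k)) →
  (∫ ξ in (0 : ℝ)..1, ξ * pw c f K ξ) = ∑ k ∈ Finset.range K, ∫ ξ in (c k)..(c (k + 1)), ξ * f k ξ ∧
  (∫ ξ in (0 : ℝ)..1, ξ * (pw c f K ξ) ^ 2) =
    ∑ k ∈ Finset.range K, ∫ ξ in (c k)..(c (k + 1)), ξ * (f k ξ) ^ 2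

/-- COEF: window sums in terms of Dirichlet polynomials -/
def S_COEF : Prop := ∀ (C ε η b : ℝ) (h : ℝ → ℝ), 0 < C → 0 < ε → ε ≤ 1 / 10 → 0 < η → Adm b h →
  ∃ T1 : ℝ, ∀ T t : ℝ, T1 ≤ T → ∀ (Z : Finset ℝ) (m : ℝ → ℕ), EFD C T Z m →
  T + Real.log T ≤ t → t ≤ 2 * T - Real.log T →
  ‖XX Z m h ((1 - ε) * Real.log T) t - ((h 0 / (2 * (1 - ε)) : ℝ) -
    DP (cf h ((1 - ε) * Real.log T)) ⌊T ^ ((1 - ε) * b + ε / 8)⌋₊ t)‖ ≤ η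

/-- DM: discrete mean over the zeros -/
def S_DM : Prop := ∀ (C ε b₁ b₂ c η : ℝ) (h₁ h₂ : ℝ → ℝ), 0 < C → 0 < ε → ε ≤ 1 / 10 →
  b₁ + b₂ ≤ 1 → 0 < η → Adm b₁ h₁ → Adm b₂ h₂ →
  ∃ T1 : ℝ, ∀ T τ : ℝ, T1 ≤ T → ∀ (Z : Finset ℝ) (m : ℝ → ℕ), EFD C T Z m →
  T + T ^ (1 - ε / 16) ≤ τ → τ ≤ 2 * T - T ^ (1 - ε / 16) →
  ∑ g ∈ Z, (m g : ℝ) * (om τ (T ^ (1 - ε / 8)) g *
      ‖DD (cf h₁ ((1 - ε) * Real.log T)) (cf h₂ ((1 - ε) * Real.log T))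
        ⌊T ^ ((1 - ε) * b₁ + ε / 8)⌋₊ ⌊T ^ ((1 - ε) * b₂ + ε / 8)⌋₊ c g‖ ^ 2) ≤
    Real.sqrt (2 * Real.pi) * T ^ (1 - ε / 8) * (Real.log T / (2 * Real.pi)) *
      ((∫ ξ in (0 : ℝ)..1, ξ * (h₁ ξ) ^ 2) + (∫ ξ in (0 : ℝ)..1, ξ * (h₂ ξ) ^ 2) + c ^ 2 -
        2 * c * (1 - ε) * ((∫ ξ in (0 : ℝ)..1, ξ * h₁ ξ) + ∫ ξ in (0 : ℝ)..1, ξ * h₂ ξ) + η)

/-- a certificate: finitely many pairs of windows adding up to a function `p` whose cosine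
transform is nonnegative -/
structure Cert (J : ℕ) where
  b₁ : Fin J → ℝ
  b₂ : Fin J → ℝ
  h₁ : Fin J → ℝ → ℝ
  h₂ : Fin J → ℝ → ℝ
  w : Fin J → ℝ
  p : ℝ → ℝ
  hb : ∀ j, b₁ j + b₂ j ≤ 1
  ad₁ : ∀ j, Adm (b₁ j) (h₁ j)
  ad₂ : ∀ j, Adm (b₂ j) (h₂ j)
  w0 : ∀ j, 0 < w j
  w1 : ∑ j, w j = 1
  pc : Continuous p
  sum : ∀ ξ, 0 ≤ ξ → ξ < 1 → ∑ j, (h₁ j ξ + h₂ j ξ) = p ξ
  pos : ∀ x : ℝ, 0 ≤ ∫ ξ in (0 : ℝ)..1, p ξ * Real.cos (x * ξ)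

/-- first moment of window `j` -/
noncomputable def Cert.S {J : ℕ} (c : Cert J) (j : Fin J) : ℝ :=
  (∫ ξ in (0 : ℝ)..1, ξ * c.h₁ j ξ) + ∫ ξ in (0 : ℝ)..1, ξ * c.h₂ j ξ

/-- variance of window `j` -/
noncomputable def Cert.V {J : ℕ} (c : Cert J) (j : Fin J) : ℝ :=
  (∫ ξ in (0 : ℝ)..1, ξ * (c.h₁ j ξ) ^ 2) + (∫ ξ in (0 : ℝ)..1, ξ * (c.h₂ j ξ) ^ 2) - (c.S j) ^ 2

/-- total variance bound -/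
noncomputable def Cert.VV {J : ℕ} (c : Cert J) : ℝ := ∑ j, c.V j / c.w j

/-- the mean of `P` -/
noncomputable def Cert.E {J : ℕ} (c : Cert J) : ℝ := c.p 0 / 2 + ∫ ξ in (0 : ℝ)..1, ξ * c.p ξ

/-- the number of points of `Z` (with multiplicity) at distance at most `r` from `g` -/
noncomputable def kk (Z : Finset ℝ) (m : ℝ → ℕ) (r g : ℝ) : ℕ :=
  ∑ g' ∈ Z.filter (fun g' => |g' - g| ≤ r), m g'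

/-- the conclusion of BLOCK: in every dyadic block (away from its ends) the sum of `Φ` (number of
zeros at distance `≤ r`) is at most `(K + δ) T log T / 2π` -/
def BlockBound (Φ : ℕ → ℝ) (x K : ℝ) : Prop := ∀ C δ : ℝ, 0 < C → 0 < δ →
  ∃ θ T1 : ℝ, 0 < θ ∧ θ < 1 ∧ ∀ T : ℝ, T1 ≤ T → ∀ (Z : Finset ℝ) (m : ℝ → ℕ), EFD C T Z m →
  ∀ r : ℝ, 0 ≤ r → r * Real.log T ≤ x →
  ∑ g ∈ Z.filter (fun g => T + T ^ θ ≤ g ∧ g ≤ 2 * T - T ^ θ),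
      (m g : ℝ) * Φ (kk Z m r g) ≤ T * Real.log T / (2 * Real.pi) * (K + δ)

/-- BLOCK -/
def S_BLOCK : Prop := ∀ (J : ℕ) (ct : Cert J) (x Q s κ : ℝ) (Φ : ℕ → ℝ), 0 ≤ x → 0 < Q →
  (∀ y : ℝ, |y| ≤ x → Q ≤ ∫ ξ in (0 : ℝ)..1, ct.p ξ * Real.cos (y * ξ)) →
  0 ≤ ct.E - s → 0 < κ →
  (∀ k : ℕ, 1 ≤ k → Φ k * κ ≤ (max 0 (k * Q - (ct.E - s))) ^ 2) →
  BlockBound Φ x ((ct.VV + s ^ 2) / κ)

end TC
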