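import Pool.Agent.W198.TC.Gau

open Complex Filter Topology Set MeasureTheory

namespace TC

lemma gs_pos (x : ℝ) : 0 < gs x := by
  unfold gs
  have := Real.pi_pos
  positivity

lemma gs_nonneg (x : ℝ) : 0 ≤ gs x := (gs_pos x).le

lemma gs_cont : Continuous gs := by
  unfold gs
  fun_prop

lemma gs_even (x : ℝ) : gs (-x) = gs x := by
  unfold gs
  rw [neg_sq]

lemma sqrt_two_pi_ge_one : 1 ≤ Real.sqrt (2 * Real.pi) := by
  rw [Real.one_le_sqrt]
  have := Real.pi_gt_three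
  linarith

lemma gs_le_exp (x : ℝ) : gs x ≤ Real.exp (-x ^ 2 / 2) := by
  unfold gs
  exact div_le_self (Real.exp_pos _).le sqrt_two_pi_ge_one

lemma gs_le_one (x : ℝ) : gs x ≤ 1 := by
  refine (gs_le_exp x).trans ?_
  rw [Real.exp_le_one_iff]
  have : 0 ≤ x ^ 2 := sq_nonneg x
  linarith

lemma gs_integrable : Integrable gs := by
  have h := (integrable_exp_neg_mul_sq (b := 1 / 2) (by norm_num)).div_const (Real.sqrt (2 * Real.pi))
  refine h.congr (Eventually.of_forall fun x => ?_)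
  unfold gs
  simp only
  congr 2
  ring

lemma gs_integral : ∫ x, gs x = 1 := by
  have h := integral_gaussian (1 / 2)
  have h1 : ∫ x, gs x = (∫ x : ℝ, Real.exp (-(1 / 2) * x ^ 2)) / Real.sqrt (2 * Real.pi) := by
    rw [← integral_div]
    congr 1
    funext x
    unfold gs
    congr 2
    ring
  rw [h1, h, show Real.pi / (1 / 2) = 2 * Real.pi by ring]
  have := Real.pi_pos
  exact div_self (by positivity)

/-- `∫ gs (M ξ - x) dξ = 1 / M` over the line -/
lemma gs_scale_integral {M : ℝ} (hM : 0 < M) (x : ℝ) : ∫ ξ, gs (M * ξ - x) = 1 / M := by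
  have h := Measure.integral_comp_mul_left (fun y => gs (y - x)) M
  rw [h, integral_sub_right_eq_self, gs_integral, abs_of_pos (inv_pos.2 hM)]
  simp

lemma gs_scale_integrable {M : ℝ} (hM : 0 < M) (x : ℝ) : Integrable (fun ξ => gs (M * ξ - x)) := by
  have h := (gs_integrable.comp_sub_right x).comp_mul_left' hM.ne'
  exact h

lemma lam_nonneg (n : ℕ) : 0 ≤ lam n := by
  unfold lam
  exact div_nonneg ArithmeticFunction.vonMangoldt_nonneg (Real.sqrt_nonneg _)

lemma lam_sq (n : ℕ) : (lam n) ^ 2 = (ArithmeticFunction.vonMangoldt n) ^ 2 / n := by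
  unfold lam
  rw [div_pow, Real.sq_sqrt (Nat.cast_nonneg n)]

lemma lam_zero : lam 0 = 0 := by simp [lam]

lemma lam_one : lam 1 = 0 := by simp [lam]

lemma lam_le_two (n : ℕ) : lam n ≤ 2 := by
  unfold lam
  rcases Nat.eq_zero_or_pos n with rfl | hn
  · simp
  · have hs : 0 < Real.sqrt n := Real.sqrt_pos.mpr (by exact_mod_cast hn)
    rw [div_le_iff₀ hs]
    refine ArithmeticFunction.vonMangoldt_le_log.trans ?_
    have h := Real.log_le_rpow_div (x := (n : ℝ)) (by positivity) (ε := 1 / 2) (by norm_num)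
    rw [← Real.sqrt_eq_rpow] at h
    linarith

lemma DP_cont (α : ℕ → ℝ) (N : ℕ) : Continuous (DP α N) := by
  unfold DP
  fun_prop

lemma DP_norm_le (α : ℕ → ℝ) (N : ℕ) (t : ℝ) : ‖DP α N t‖ ≤ ∑ n ∈ Finset.Icc 2 N, |α n| := by
  unfold DP
  refine (norm_sum_le _ _).trans (Finset.sum_le_sum fun n _ => ?_)
  rw [norm_mul, Complex.norm_exp_ofReal_mul_I, mul_one, Complex.norm_real, Real.norm_eq_abs]

lemma DD_cont (α β : ℕ → ℝ) (N₁ N₂ : ℕ) (c : ℝ) : Continuous (DD α β N₁ N₂ c) := by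
  unfold DD
  exact ((DP_cont α N₁).add (continuous_conj.comp (DP_cont β N₂))).add continuous_const

lemma sz_nonneg (α β : ℕ → ℝ) (N₁ N₂ : ℕ) (c : ℝ) : 0 ≤ sz α β N₁ N₂ c := by
  unfold sz
  positivity

lemma DD_norm_le (α β : ℕ → ℝ) (N₁ N₂ : ℕ) (c t : ℝ) : ‖DD α β N₁ N₂ c t‖ ≤ sz α β N₁ N₂ c := by
  unfold DD sz
  refine (norm_add_le _ _).trans ?_
  refine add_le_add ((norm_add_le _ _).trans (add_le_add (DP_norm_le α N₁ t) ?_)) ?_
  · rw [RCLike.norm_conj]
    exact DP_norm_le β N₂ t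
  · rw [Complex.norm_real, Real.norm_eq_abs]

lemma FF_cont2 (Z : Finset ℝ) (m : ℝ → ℕ) : Continuous (fun p : ℝ × ℝ => FF Z m p.1 p.2) := by
  unfold FF
  fun_prop

lemma FF_cont_u (Z : Finset ℝ) (m : ℝ → ℕ) (t : ℝ) : Continuous (fun u => FF Z m u t) := by
  unfold FF
  fun_prop

lemma FF_cont_t (Z : Finset ℝ) (m : ℝ → ℕ) (u : ℝ) : Continuous (fun t => FF Z m u t) := by
  unfold FF
  fun_prop

lemma FF_norm_le (Z : Finset ℝ) (m : ℝ → ℕ) (u t : ℝ) : ‖FF Z m u t‖ ≤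
    ∑ g ∈ Z, (m g : ℝ) * Real.exp (-(g - t) ^ 2 / 2) := by
  unfold FF
  refine (norm_sum_le _ _).trans (Finset.sum_le_sum fun n _ => ?_)
  rw [norm_mul, Complex.norm_exp_ofReal_mul_I, mul_one, Complex.norm_real, Real.norm_of_nonneg
    (by positivity)]

end TC
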