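import Pool.Agent.W198.TC.Defs

open Complex Filter Topology Set MeasureTheory

namespace TC

/-- GAU: Fourier transform of the wide Gaussian -/
def S_GAU : Prop := ∀ τ H x : ℝ, 0 < H →
  Integrable (fun t : ℝ => (om τ H t : ℂ) * cexp (((t * x : ℝ) : ℂ) * I)) ∧
  ∫ t : ℝ, (om τ H t : ℂ) * cexp (((t * x : ℝ) : ℂ) * I) =
    ((Real.sqrt (2 * Real.pi) * H * Real.exp (-(H ^ 2 * x ^ 2) / 2) : ℝ) : ℂ) *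
      cexp (((τ * x : ℝ) : ℂ) * I)

/-- C0: the triple diagonal is bounded -/
def S_C0 : Prop := ∃ C0 : ℝ, 0 < C0 ∧ ∀ N : ℕ,
  ∑ a ∈ Finset.Icc 2 N, ∑ b ∈ Finset.Icc 2 N, lam a * lam b * lam (a * b) ≤ C0

/-- TRI1: second moment of a two-sided Dirichlet polynomial -/
def S_TRI1 : Prop := ∀ (α β : ℕ → ℝ) (N₁ N₂ : ℕ) (c τ H : ℝ), 0 < H → 1 ≤ N₁ → 1 ≤ N₂ →
  |(∫ t : ℝ, om τ H t * ‖DD α β N₁ N₂ c t‖ ^ 2) -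
    Real.sqrt (2 * Real.pi) * H * ((∑ n ∈ Finset.Icc 2 N₁, (α n) ^ 2) +
      (∑ n ∈ Finset.Icc 2 N₂, (β n) ^ 2) + c ^ 2)| ≤
    Real.sqrt (2 * Real.pi) * H * ((sz α β N₁ N₂ c) ^ 2 *
      Real.exp (-(H ^ 2) / (8 * ((N₁ : ℝ) * N₂) ^ 2)))

/-- TRI2: the twisted second moment -/
def S_TRI2 : Prop := ∃ C0 : ℝ, 0 < C0 ∧ ∀ (α β q : ℕ → ℝ) (N₁ N₂ N₃ : ℕ) (c τ H A : ℝ), 0 < H →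
  1 ≤ N₁ → 1 ≤ N₂ → N₁ ≤ N₃ → N₂ ≤ N₃ →
  (∀ n, |α n| ≤ A * lam n) → (∀ n, |β n| ≤ A * lam n) → (∀ n, |q n| ≤ lam n) →
  |(∫ t : ℝ, om τ H t * ‖DD α β N₁ N₂ c t‖ ^ 2 * (DP q N₃ t).re) -
    Real.sqrt (2 * Real.pi) * H * (c * ((∑ n ∈ Finset.Icc 2 N₁, α n * q n) +
      (∑ n ∈ Finset.Icc 2 N₂, β n * q n)))| ≤
    Real.sqrt (2 * Real.pi) * H * (C0 * A ^ 2 + (sz α β N₁ N₂ c) ^ 2 *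
      (∑ n ∈ Finset.Icc 2 N₃, |q n|) * Real.exp (-(H ^ 2) / (8 * ((N₁ : ℝ) * N₂) ^ 2)))

/-- RK: reproducing kernel identity -/
def S_RK : Prop := ∃ C : ℝ, 0 < C ∧ ∀ (Z : Finset ℝ) (m : ℝ → ℕ) (α β : ℕ → ℝ) (N₁ N₂ : ℕ)
  (c τ H M G : ℝ), 1 ≤ H → 0 ≤ G → 1 ≤ N₁ → 1 ≤ N₂ → Real.log ((N₁ : ℝ) * N₂) + G ≤ M →
  |(∑ g ∈ Z, (m g : ℝ) * (om τ H g * ‖DD α β N₁ N₂ c g‖ ^ 2)) -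
    (1 / Real.pi) * ∫ t : ℝ, om τ H t * ‖DD α β N₁ N₂ c t‖ ^ 2 *
      (∫ u in (0 : ℝ)..M, (FF Z m u t).re)| ≤
    C * (∑ g ∈ Z, (m g : ℝ)) * (sz α β N₁ N₂ c) ^ 2 * Real.exp (-(G ^ 2) / 8)

/-- LSQ: two-sided Mertens for `Λ²/n` -/
def S_LSQ : Prop := ∃ C : ℝ, 0 < C ∧ ∀ N : ℕ, 1 ≤ N →
  |(∑ n ∈ Finset.Icc 1 N, (lam n) ^ 2) - (Real.log N) ^ 2 / 2| ≤ C * (Real.log N + 1)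

/-- KCUM: cumulative behaviour of `KK` -/
def S_KCUM : Prop := (∀ y, Summable (fun n : ℕ => (lam n) ^ 2 * gs (y - Real.log n))) ∧
  Continuous KK ∧ ∃ C : ℝ, 0 < C ∧ ∀ Y : ℝ, 0 ≤ Y →
  |(∫ y in (0 : ℝ)..Y, KK y) - Y ^ 2 / 2| ≤ C * (Y + 1)

/-- WEAK: weak convergence of the measures `KK(Mξ)dξ/M` to `ξdξ` -/
def S_WEAK : Prop := ∀ (f : ℝ → ℝ) (c d : ℝ), Continuous f → 0 ≤ c → c ≤ d →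
  Tendsto (fun M : ℝ => (1 / M ^ 2) * ∫ y in (c * M)..(d * M), f (y / M) * KK y) atTop
    (𝓝 (∫ ξ in c..d, ξ * f ξ))

/-- SUM1 -/
def S_SUM1 : Prop := ∀ (b : ℝ) (h : ℝ → ℝ), Adm b h → ∀ η : ℝ, 0 < η →
  ∃ M0 : ℝ, ∀ M : ℝ, M0 ≤ M → ∀ N : ℕ,
    ∑ n ∈ Finset.Icc 2 N, (cf h M n) ^ 2 ≤ (∫ ξ in (0 : ℝ)..1, ξ * (h ξ) ^ 2) + η

/-- SUM2 -/
def S_SUM2 : Prop := ∀ (b : ℝ) (h : ℝ → ℝ), Adm b h → ∀ ρ η : ℝ, 0 < ρ → 0 < η →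
  ∃ M0 : ℝ, ∀ M ℓ : ℝ, M0 ≤ M → (1 + ρ) * M ≤ ℓ → ∀ N : ℕ, (b + ρ) * M ≤ Real.log (N + 1) →
    |(1 / M) * (∑ n ∈ Finset.Icc 2 N, cf h M n * qf ℓ n) - ∫ ξ in (0 : ℝ)..1, ξ * h ξ| ≤ η

end TC
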