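import Pool.Agent.W198.TC.DM
import Pool.Agent.W198.TC.BlockD
import Pool.Agent.W578.TCC0
import Pool.Agent.W333.TC.TRI1
import Pool.Agent.W63.TC.TRI2
import Pool.Agent.W460.TCRK
import Pool.Agent.W542.TCLsq
import Pool.Agent.W991.TC.KCUM
import Pool.Agent.W440.TC.Weak
import Pool.Agent.W440.TC.Adm
import Pool.Agent.W135.TC.PWI
import Pool.Agent.W230.TC.Sum1
import Pool.Agent.W376.TC.Sum2
import Pool.Agent.W327.TC.TCCoef

namespace TC

theorem kcumT : S_KCUM := kcum lsq
theorem weakT : S_WEAK := Pool.Agent.W440.TCW.weak kcumT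
theorem admT : S_ADM := Pool.Agent.W440.TCA.adm weakT kcumT
theorem dmT : S_DM := dm tri1 (tri2 c0) rk (sum1 kcumT) (sum2 kcumT)
theorem blockT : S_BLOCK := block dmT coef

end TC
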