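import Mathlib

open Filter Topology

namespace TC

lemma ev_exp (K : ℝ) (k : ℕ) (a c δ : ℝ) (ha : 0 < a) (hc : 0 < c) (hδ : 0 < δ) :
    ∀ᶠ T : ℝ in atTop, K * T ^ k * Real.exp (-(c * T ^ a)) ≤ δ := by
  have h1 := tendsto_rpow_mul_exp_neg_mul_atTop_nhds_zero ((k : ℝ) / a) c hc
  have h2 := (h1.comp (tendsto_rpow_atTop ha)).const_mul K
  rw [mul_zero] at h2
  have h3 := h2.eventually (ge_mem_nhds hδ)
  filter_upwards [h3, eventually_ge_atTop 0] with T hT hT0
  have e1 : (T ^ a) ^ ((k : ℝ) / a) = T ^ k := by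
    rw [← Real.rpow_mul hT0, mul_div_cancel₀ _ ha.ne', Real.rpow_natCast]
  simp only [Function.comp_apply, e1] at hT
  rw [mul_assoc]
  have e2 : -(c * T ^ a) = -c * T ^ a := by ring
  rw [e2]
  exact hT

lemma ev_log (K : ℝ) (k : ℕ) (c δ : ℝ) (hc : 0 < c) (hδ : 0 < δ) :
    ∀ᶠ T : ℝ in atTop, K * T ^ k * Real.exp (-(c * (Real.log T) ^ 2)) ≤ δ := by
  have h1 : ∀ᶠ T : ℝ in atTop, (k + 1 : ℝ) / c ≤ Real.log T :=
    Real.tendsto_log_atTop.eventually_ge_atTop _
  have h2 : ∀ᶠ T : ℝ in atTop, |K| / δ ≤ T := eventually_ge_atTop _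
  filter_upwards [h1, h2, eventually_gt_atTop 1] with T hT hT2 hT1
  have hT0 : 0 < T := by linarith
  have hl : 0 < Real.log T := Real.log_pos hT1
  have e1 : T ^ k * Real.exp (-(c * (Real.log T) ^ 2)) ≤ 1 / T := by
    have e2 : T ^ k = Real.exp (k * Real.log T) := by
      rw [mul_comm, Real.exp_mul, Real.exp_log hT0, Real.rpow_natCast]
    have e3 : 1 / T = Real.exp (-Real.log T) := by
      rw [Real.exp_neg, Real.exp_log hT0, one_div]
    rw [e2, e3, ← Real.exp_add]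
    apply Real.exp_le_exp.2
    have h3 : (k + 1 : ℝ) ≤ c * Real.log T := by
      rw [div_le_iff₀ hc] at hT
      linarith
    nlinarith
  rw [mul_assoc]
  calc K * (T ^ k * Real.exp (-(c * (Real.log T) ^ 2))) ≤
      |K| * (T ^ k * Real.exp (-(c * (Real.log T) ^ 2))) :=
        mul_le_mul_of_nonneg_right (le_abs_self K) (by positivity)
    _ ≤ |K| * (1 / T) := mul_le_mul_of_nonneg_left e1 (abs_nonneg _)
    _ ≤ δ := by
        rw [mul_one_div, div_le_iff₀ hT0]
        rw [div_le_iff₀ hδ] at hT2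
        linarith

end TC
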