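import Pool.Agent.W198.TC.DMaux
import Pool.Agent.W198.TC.Stms2

open Complex Filter Topology Set MeasureTheory

namespace TC

lemma adm_int {b : ℝ} {h : ℝ → ℝ} (ha : Adm b h) {f : ℝ → ℝ} (hf : Continuous f) :
    IntervalIntegrable (fun ξ => h ξ * f ξ) volume 0 1 := by
  obtain ⟨B, hB⟩ := ha.bdd
  have h1 : IntervalIntegrable (fun ξ => |f ξ| * B) volume 0 1 :=
    (hf.abs.mul continuous_const).intervalIntegrable _ _
  refine h1.mono_fun (ha.meas.mul hf.measurable).aestronglyMeasurable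
    (Eventually.of_forall fun ξ => ?_)
  have hB0 : 0 ≤ B := (abs_nonneg _).trans (hB 0)
  show ‖h ξ * f ξ‖ ≤ ‖|f ξ| * B‖
  rw [Real.norm_eq_abs, Real.norm_eq_abs, abs_mul, abs_mul, abs_abs, abs_of_nonneg hB0, mul_comm]
  exact mul_le_mul_of_nonneg_left (hB ξ) (abs_nonneg _)

lemma adm_intc {b : ℝ} {h : ℝ → ℝ} (ha : Adm b h) {f : ℝ → ℂ} (hf : Continuous f) :
    IntervalIntegrable (fun ξ => (h ξ : ℂ) * f ξ) volume 0 1 := by
  obtain ⟨B, hB⟩ := ha.bdd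
  have h1 : IntervalIntegrable (fun ξ => ‖f ξ‖ * B) volume 0 1 :=
    (hf.norm.mul continuous_const).intervalIntegrable _ _
  refine h1.mono_fun ((Complex.measurable_ofReal.comp ha.meas).mul hf.measurable).aestronglyMeasurable
    (Eventually.of_forall fun ξ => ?_)
  have hB0 : 0 ≤ B := (abs_nonneg _).trans (hB 0)
  show ‖(h ξ : ℂ) * f ξ‖ ≤ ‖‖f ξ‖ * B‖
  rw [norm_mul, norm_mul, norm_norm, Complex.norm_real, Real.norm_eq_abs, Real.norm_of_nonneg hB0,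
    mul_comm]
  exact mul_le_mul_of_nonneg_left (hB ξ) (norm_nonneg _)

lemma FF_re (Z : Finset ℝ) (m : ℝ → ℕ) (u t : ℝ) : (FF Z m u t).re =
    ∑ g ∈ Z, ((m g : ℝ) * Real.exp (-(g - t) ^ 2 / 2)) * Real.cos (u * (g - t)) := by
  unfold FF
  rw [re_sum]
  apply Finset.sum_congr rfl
  intro g _
  rw [Complex.re_ofReal_mul, Complex.exp_ofReal_mul_I_re]

lemma XX_re {Z : Finset ℝ} {m : ℝ → ℕ} {b : ℝ} {h : ℝ → ℝ} (ha : Adm b h) (M t : ℝ) :
    (XX Z m h M t).re = ∫ ξ in (0 : ℝ)..1, h ξ * (FF Z m (M * ξ) t).re := by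
  have hc : Continuous fun ξ : ℝ => FF Z m (M * ξ) t :=
    (FF_cont_u Z m t).comp (by fun_prop)
  have h1 := adm_intc ha hc
  unfold XX
  have h2 := Complex.reCLM.intervalIntegral_comp_comm h1
  simp only [Complex.reCLM_apply] at h2
  rw [← h2]
  apply intervalIntegral.integral_congr
  intro ξ _
  exact Complex.re_ofReal_mul _ _

/-- the cosine transform of the certificate -/
noncomputable def Cert.Pf {J : ℕ} (ct : Cert J) (y : ℝ) : ℝ :=
  ∫ ξ in (0 : ℝ)..1, ct.p ξ * Real.cos (y * ξ)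

/-- the local sum attached to the certificate -/
noncomputable def PS {J : ℕ} (ct : Cert J) (Z : Finset ℝ) (m : ℝ → ℕ) (M t : ℝ) : ℝ :=
  ∑ j, ((XX Z m (ct.h₁ j) M t).re + (XX Z m (ct.h₂ j) M t).re)

lemma cert_int {J : ℕ} (ct : Cert J) {f : ℝ → ℝ} (hf : Continuous f) :
    ∑ j, ((∫ ξ in (0 : ℝ)..1, ct.h₁ j ξ * f ξ) + ∫ ξ in (0 : ℝ)..1, ct.h₂ j ξ * f ξ) =
      ∫ ξ in (0 : ℝ)..1, ct.p ξ * f ξ := by
  have h1 : ∀ j, (∫ ξ in (0 : ℝ)..1, ct.h₁ j ξ * f ξ) + ∫ ξ in (0 : ℝ)..1, ct.h₂ j ξ * f ξ =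
      ∫ ξ in (0 : ℝ)..1, (ct.h₁ j ξ * f ξ + ct.h₂ j ξ * f ξ) := fun j =>
    (intervalIntegral.integral_add (adm_int (ct.ad₁ j) hf) (adm_int (ct.ad₂ j) hf)).symm
  simp_rw [h1]
  rw [← intervalIntegral.integral_finsetSum
    (fun j _ => (adm_int (ct.ad₁ j) hf).add (adm_int (ct.ad₂ j) hf))]
  apply intervalIntegral.integral_congr_ae
  have hne : ∀ᵐ ξ : ℝ ∂volume, ξ ≠ 1 := by
    rw [ae_iff]
    simp
  filter_upwards [hne] with ξ hξ1 hξ
  rw [uIoc_of_le zero_le_one] at hξ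
  have h2 := ct.sum ξ hξ.1.le (lt_of_le_of_ne hξ.2 hξ1)
  rw [← h2, Finset.sum_mul]
  exact Finset.sum_congr rfl fun j _ => by ring

lemma PS_eq {J : ℕ} (ct : Cert J) (Z : Finset ℝ) (m : ℝ → ℕ) (M t : ℝ) :
    PS ct Z m M t = ∑ g ∈ Z, ((m g : ℝ) * Real.exp (-(g - t) ^ 2 / 2)) * ct.Pf (M * (g - t)) := by
  have hc : Continuous fun ξ : ℝ => (FF Z m (M * ξ) t).re :=
    Complex.continuous_re.comp ((FF_cont_u Z m t).comp (by fun_prop))
  unfold PS
  simp_rw [XX_re (ct.ad₁ _), XX_re (ct.ad₂ _)]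
  rw [cert_int ct hc]
  simp_rw [FF_re, Finset.mul_sum]
  rw [intervalIntegral.integral_finsetSum]
  · apply Finset.sum_congr rfl
    intro g _
    unfold Cert.Pf
    rw [← intervalIntegral.integral_const_mul]
    apply intervalIntegral.integral_congr
    intro ξ _
    simp only
    rw [show M * ξ * (g - t) = M * (g - t) * ξ by ring]
    ring
  · intro g _
    apply Continuous.intervalIntegrable
    exact ct.pc.mul (by fun_prop)

lemma PS_ge {J : ℕ} (ct : Cert J) {Z : Finset ℝ} {m : ℝ → ℕ} {M t r x Q : ℝ} (hM : 0 ≤ M)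
    (hr : M * r ≤ x) (hQ0 : 0 ≤ Q) (hQ : ∀ y : ℝ, |y| ≤ x → Q ≤ ct.Pf y) :
    (kk Z m r t : ℝ) * Q * (1 - r ^ 2 / 2) ≤ PS ct Z m M t := by
  rw [PS_eq]
  unfold kk
  push_cast
  rw [Finset.sum_mul, Finset.sum_mul]
  calc ∑ g ∈ Z.filter (fun g' => |g' - t| ≤ r), (m g : ℝ) * Q * (1 - r ^ 2 / 2) ≤
      ∑ g ∈ Z.filter (fun g' => |g' - t| ≤ r),
        ((m g : ℝ) * Real.exp (-(g - t) ^ 2 / 2)) * ct.Pf (M * (g - t)) := by
        apply Finset.sum_le_sum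
        intro g hg
        have hg2 := (Finset.mem_filter.1 hg).2
        have h1 : |M * (g - t)| ≤ x := by
          rw [abs_mul, abs_of_nonneg hM]
          exact (mul_le_mul_of_nonneg_left hg2 hM).trans hr
        have h2 := hQ _ h1
        have h3 : 1 - r ^ 2 / 2 ≤ Real.exp (-(g - t) ^ 2 / 2) := by
          have h4 := Real.add_one_le_exp (-(g - t) ^ 2 / 2)
          have h5 : (g - t) ^ 2 ≤ r ^ 2 := by
            rw [← sq_abs (g - t)]
            exact pow_le_pow_left₀ (abs_nonneg _) hg2 2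
          linarith
        have hm : (0 : ℝ) ≤ m g := Nat.cast_nonneg _
        calc (m g : ℝ) * Q * (1 - r ^ 2 / 2) ≤ (m g : ℝ) * Q * Real.exp (-(g - t) ^ 2 / 2) :=
              mul_le_mul_of_nonneg_left h3 (by positivity)
          _ = (m g : ℝ) * Real.exp (-(g - t) ^ 2 / 2) * Q := by ring
          _ ≤ _ := mul_le_mul_of_nonneg_left h2 (by positivity)
    _ ≤ _ := by
        apply Finset.sum_le_sum_of_subset_of_nonneg (Finset.filter_subset _ _)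
        intro g _ _
        have : 0 ≤ ct.Pf (M * (g - t)) := ct.pos _
        positivity

/-- pointwise inequality at a zero -/
lemma point_alg {k : ℕ} {Q b P κ φ ε A e2 q c3 : ℝ} (hQ : 0 < Q) (hb : 0 ≤ b)
    (hε : 0 < ε) (hε1 : ε ≤ 1 / 10) (hq : q ≤ ε) (hP : k * Q * (1 - q) ≤ P)
    (hφ : φ * κ ≤ (max 0 (k * Q - b)) ^ 2) (hPb : |P - b + A| ≤ e2) (he2 : e2 ≤ ε * c3)
    (hc3 : 0 ≤ c3) :
    φ * κ ≤ (1 + ε) * (1 + 2 * ε) ^ 2 * A ^ 2 + 2 * ε * (2 * c3 + 2 * b) ^ 2 := by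
  have h1 : k * Q ≤ P * (1 + 2 * ε) := by
    have h0 : 0 ≤ k * Q := by positivity
    have h2 : k * Q * (1 - ε) ≤ P := by
      refine le_trans ?_ hP
      apply mul_le_mul_of_nonneg_left _ h0
      linarith
    have h3 : 0 ≤ P := le_trans (by nlinarith) h2
    have h4 : 1 ≤ (1 - ε) * (1 + 2 * ε) := by nlinarith
    nlinarith
  have h2 : |P - b| ≤ |A| + ε * c3 := by
    have : P - b = (P - b + A) - A := by ring
    rw [this]
    refine (abs_sub _ _).trans ?_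
    linarith
  have h3 : max 0 (k * Q - b) ≤ (1 + 2 * ε) * |A| + ε * (2 * c3 + 2 * b) := by
    apply max_le
    · positivity
    · have h4 := le_abs_self (P - b)
      have h5 : k * Q - b ≤ (1 + 2 * ε) * (P - b) + 2 * ε * b := by linarith
      have h6 : (1 + 2 * ε) * (P - b) ≤ (1 + 2 * ε) * (|A| + ε * c3) :=
        mul_le_mul_of_nonneg_left (h4.trans h2) (by linarith)
      have h7 : (1 + 2 * ε) * (ε * c3) ≤ 2 * (ε * c3) := by
        apply mul_le_mul_of_nonneg_right _ (by positivity)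
        linarith
      nlinarith
  have h4 : (max 0 (k * Q - b)) ^ 2 ≤ ((1 + 2 * ε) * |A| + ε * (2 * c3 + 2 * b)) ^ 2 :=
    pow_le_pow_left₀ (le_max_left _ _) h3 2
  refine (hφ.trans h4).trans ?_
  set X := (1 + 2 * ε) * |A| with hX
  set Y := 2 * c3 + 2 * b with hY
  have hX2 : X ^ 2 = (1 + 2 * ε) ^ 2 * A ^ 2 := by rw [hX, mul_pow, sq_abs]
  have h5 : (X + ε * Y) ^ 2 ≤ (1 + ε) * X ^ 2 + 2 * ε * Y ^ 2 := by
    have : 0 ≤ (X - Y) ^ 2 := sq_nonneg _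
    nlinarith [mul_nonneg hε.le this, mul_nonneg (mul_nonneg hε.le (by linarith : 0 ≤ 1 - ε)) (sq_nonneg Y)]
  rw [mul_assoc, ← hX2]
  exact h5

end TC
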