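import Pool.Agent.W198.TC.BlockA
import Pool.Agent.W198.TC.Asym

open Complex Filter Topology Set MeasureTheory

namespace TC

/-- the constants -/
noncomputable def Cert.c {J : ℕ} (ct : Cert J) (s : ℝ) (j : Fin J) : ℝ := ct.S j - ct.w j * s

/-- the two-sided polynomials of the certificate -/
noncomputable def DJ {J : ℕ} (ct : Cert J) (s ε T : ℝ) (j : Fin J) (t : ℝ) : ℂ :=
  DD (cf (ct.h₁ j) ((1 - ε) * Real.log T)) (cf (ct.h₂ j) ((1 - ε) * Real.log T))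
    ⌊T ^ ((1 - ε) * ct.b₁ j + ε / 8)⌋₊ ⌊T ^ ((1 - ε) * ct.b₂ j + ε / 8)⌋₊ (ct.c s j) t

lemma sum_S {J : ℕ} (ct : Cert J) : ∑ j, ct.S j = ∫ ξ in (0 : ℝ)..1, ξ * ct.p ξ := by
  have h := cert_int ct (f := fun ξ => ξ) continuous_id
  have e : ∀ (f : ℝ → ℝ), (∫ ξ in (0 : ℝ)..1, f ξ * ξ) = ∫ ξ in (0 : ℝ)..1, ξ * f ξ := fun f =>
    intervalIntegral.integral_congr fun ξ _ => mul_comm _ _
  unfold Cert.S
  simp_rw [e] at h
  exact h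

lemma sum_c {J : ℕ} (ct : Cert J) (s : ℝ) :
    ∑ j, ct.c s j = (∫ ξ in (0 : ℝ)..1, ξ * ct.p ξ) - s := by
  unfold Cert.c
  rw [Finset.sum_sub_distrib, sum_S, ← Finset.sum_mul, ct.w1, one_mul]

lemma DJ_re {J : ℕ} (ct : Cert J) (s ε T : ℝ) (j : Fin J) (t : ℝ) : (DJ ct s ε T j t).re =
    (DP (cf (ct.h₁ j) ((1 - ε) * Real.log T)) ⌊T ^ ((1 - ε) * ct.b₁ j + ε / 8)⌋₊ t).re +
    (DP (cf (ct.h₂ j) ((1 - ε) * Real.log T)) ⌊T ^ ((1 - ε) * ct.b₂ j + ε / 8)⌋₊ t).re +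
      ct.c s j := by
  unfold DJ DD
  rw [add_re, add_re, conj_re, ofReal_re]

lemma point_err (hc : S_COEF) {J : ℕ} (ct : Cert J) (s C ε : ℝ) (hC : 0 < C) (hε : 0 < ε)
    (hε1 : ε ≤ 1 / 10) : ∀ᶠ T : ℝ in atTop, ∀ (t : ℝ) (Z : Finset ℝ) (m : ℝ → ℕ), EFD C T Z m →
      T + Real.log T ≤ t → t ≤ 2 * T - Real.log T →
      |PS ct Z m ((1 - ε) * Real.log T) t - (ct.E - s) + ∑ j, (DJ ct s ε T j t).re| ≤
        ε * (|ct.p 0| + 2 * J) := by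
  have h1 : ∀ j, ∀ᶠ T : ℝ in atTop, ∀ (t : ℝ) (Z : Finset ℝ) (m : ℝ → ℕ), EFD C T Z m →
      T + Real.log T ≤ t → t ≤ 2 * T - Real.log T →
      ‖XX Z m (ct.h₁ j) ((1 - ε) * Real.log T) t - ((ct.h₁ j 0 / (2 * (1 - ε)) : ℝ) -
        DP (cf (ct.h₁ j) ((1 - ε) * Real.log T)) ⌊T ^ ((1 - ε) * ct.b₁ j + ε / 8)⌋₊ t)‖ ≤ ε := by
    intro j
    obtain ⟨T1, hT1⟩ := hc C ε ε (ct.b₁ j) (ct.h₁ j) hC hε hε1 hε (ct.ad₁ j)
    filter_upwards [eventually_ge_atTop T1] with T hT t Z m hE ht1 ht2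
    exact hT1 T t hT Z m hE ht1 ht2
  have h2 : ∀ j, ∀ᶠ T : ℝ in atTop, ∀ (t : ℝ) (Z : Finset ℝ) (m : ℝ → ℕ), EFD C T Z m →
      T + Real.log T ≤ t → t ≤ 2 * T - Real.log T →
      ‖XX Z m (ct.h₂ j) ((1 - ε) * Real.log T) t - ((ct.h₂ j 0 / (2 * (1 - ε)) : ℝ) -
        DP (cf (ct.h₂ j) ((1 - ε) * Real.log T)) ⌊T ^ ((1 - ε) * ct.b₂ j + ε / 8)⌋₊ t)‖ ≤ ε := by
    intro j
    obtain ⟨T1, hT1⟩ := hc C ε ε (ct.b₂ j) (ct.h₂ j) hC hε hε1 hε (ct.ad₂ j)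
    filter_upwards [eventually_ge_atTop T1] with T hT t Z m hE ht1 ht2
    exact hT1 T t hT Z m hE ht1 ht2
  filter_upwards [eventually_all.2 h1, eventually_all.2 h2] with T k1 k2 t Z m hE ht1 ht2
  have e0 : ct.p 0 = ∑ j, (ct.h₁ j 0 + ct.h₂ j 0) := (ct.sum 0 le_rfl one_pos).symm
  have hd : 0 < 1 - ε := by linarith
  have hre : ∀ (x : ℂ) (y : ℝ) (z : ℂ), ‖x - ((y : ℂ) - z)‖ ≤ ε → |x.re - y + z.re| ≤ ε := by
    intro x y z h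
    refine le_trans ?_ h
    have := Complex.abs_re_le_norm (x - ((y : ℂ) - z))
    rw [sub_re, sub_re, ofReal_re] at this
    have e : x.re - y + z.re = x.re - (y - z.re) := by ring
    rw [e]
    exact this
  have k3 : ∀ j, |((XX Z m (ct.h₁ j) ((1 - ε) * Real.log T) t).re +
      (XX Z m (ct.h₂ j) ((1 - ε) * Real.log T) t).re) -
      (ct.h₁ j 0 + ct.h₂ j 0) / (2 * (1 - ε)) + ((DJ ct s ε T j t).re - ct.c s j)| ≤ 2 * ε := by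
    intro j
    have a1 := hre _ _ _ (k1 j t Z m hE ht1 ht2)
    have a2 := hre _ _ _ (k2 j t Z m hE ht1 ht2)
    rw [DJ_re]
    rw [abs_le] at a1 a2 ⊢
    have e : (ct.h₁ j 0 + ct.h₂ j 0) / (2 * (1 - ε)) =
        ct.h₁ j 0 / (2 * (1 - ε)) + ct.h₂ j 0 / (2 * (1 - ε)) := add_div _ _ _
    rw [e]
    constructor <;> linarith [a1.1, a1.2, a2.1, a2.2]
  have k4 : |∑ j, (((XX Z m (ct.h₁ j) ((1 - ε) * Real.log T) t).re +
      (XX Z m (ct.h₂ j) ((1 - ε) * Real.log T) t).re) -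
      (ct.h₁ j 0 + ct.h₂ j 0) / (2 * (1 - ε)) + ((DJ ct s ε T j t).re - ct.c s j))| ≤
      J * (2 * ε) := by
    refine (Finset.abs_sum_le_sum_abs _ _).trans ?_
    refine (Finset.sum_le_card_nsmul _ _ _ fun j _ => k3 j).trans ?_
    simp
  rw [Finset.sum_add_distrib, Finset.sum_sub_distrib, Finset.sum_sub_distrib, ← Finset.sum_div,
    ← e0, sum_c] at k4
  have e1 : PS ct Z m ((1 - ε) * Real.log T) t = ∑ j, ((XX Z m (ct.h₁ j)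
      ((1 - ε) * Real.log T) t).re + (XX Z m (ct.h₂ j) ((1 - ε) * Real.log T) t).re) := rfl
  rw [← e1] at k4
  have e2 : |ct.p 0 / (2 * (1 - ε)) - ct.p 0 / 2| ≤ |ct.p 0| * ε := by
    have : ct.p 0 / (2 * (1 - ε)) - ct.p 0 / 2 = ct.p 0 * (ε / (2 * (1 - ε))) := by
      field_simp
      ring
    rw [this, abs_mul]
    apply mul_le_mul_of_nonneg_left _ (abs_nonneg _)
    rw [abs_of_nonneg (by positivity), div_le_iff₀ (by positivity)]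
    nlinarith
  have e3 : PS ct Z m ((1 - ε) * Real.log T) t - (ct.E - s) + ∑ j, (DJ ct s ε T j t).re =
      (PS ct Z m ((1 - ε) * Real.log T) t - ct.p 0 / (2 * (1 - ε)) + (∑ j, (DJ ct s ε T j t).re -
        ((∫ ξ in (0 : ℝ)..1, ξ * ct.p ξ) - s))) + (ct.p 0 / (2 * (1 - ε)) - ct.p 0 / 2) := by
    unfold Cert.E
    ring
  rw [e3]
  refine (abs_add_le _ _).trans ?_
  linarith

lemma cs_w {J : ℕ} (ct : Cert J) (z : Fin J → ℂ) :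
    (∑ j, (z j).re) ^ 2 ≤ ∑ j, ‖z j‖ ^ 2 / ct.w j := by
  have h := Finset.sum_sq_le_sum_mul_sum_of_sq_le_mul Finset.univ (r := fun j => (z j).re)
    (f := fun j => ct.w j) (g := fun j => (z j).re ^ 2 / ct.w j) (fun j _ => (ct.w0 j).le)
    (fun j _ => by have := ct.w0 j; positivity) (fun j _ => by
      have := (ct.w0 j).ne'
      exact le_of_eq (by field_simp))
  rw [ct.w1, one_mul] at h
  refine h.trans (Finset.sum_le_sum fun j _ => ?_)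
  apply div_le_div_of_nonneg_right _ (ct.w0 j).le
  rw [← sq_abs]
  exact pow_le_pow_left₀ (abs_nonneg _) (Complex.abs_re_le_norm _) 2

end TC
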