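import Pool.Agent.W198.TC.DMaux

open Complex Filter Topology Set MeasureTheory

namespace TC

lemma om_far {τ H t dd : ℝ} (hH : 0 < H) (hd : 0 ≤ dd) (h : dd ≤ |t - τ|) :
    om τ H t ≤ Real.exp (-(dd ^ 2) / (4 * H ^ 2)) * om τ (Real.sqrt 2 * H) t := by
  unfold om
  rw [← Real.exp_add, mul_pow, Real.sq_sqrt (by norm_num : (0 : ℝ) ≤ 2)]
  apply Real.exp_le_exp.2
  have h2 : dd ^ 2 ≤ (t - τ) ^ 2 := by
    rw [← sq_abs (t - τ)]
    exact pow_le_pow_left₀ hd h 2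
  have e1 : -(t - τ) ^ 2 / (2 * H ^ 2) = -(2 * (t - τ) ^ 2) / (4 * H ^ 2) := by
    field_simp; ring
  have e2 : -(t - τ) ^ 2 / (2 * (2 * H ^ 2)) = -(t - τ) ^ 2 / (4 * H ^ 2) := by
    congr 1; ring
  rw [e1, e2, ← add_div]
  apply div_le_div_of_nonneg_right _ (by positivity)
  linarith

lemma dm_core {C T : ℝ} {Z : Finset ℝ} {m : ℝ → ℕ} (hE : EFD C T Z m) (hC : 0 < C)
    (h4 : 4 ≤ Real.log T) (α β : ℕ → ℝ) (N₁ N₂ : ℕ) (c τ H dd : ℝ) (hH : 0 < H) (hd : 0 ≤ dd)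
    (h1 : T + Real.log T + dd ≤ τ) (h2 : τ + dd ≤ 2 * T - Real.log T) (X : ℕ)
    (hX : 3 * Real.log T ≤ Real.log (X + 1)) :
    ∫ t, om τ H t * ‖DD α β N₁ N₂ c t‖ ^ 2 * RR Z m (Real.log T) t ≤
      (Real.log T / 2 + 2 * C) * (∫ t, om τ H t * ‖DD α β N₁ N₂ c t‖ ^ 2) -
      (∫ t, om τ H t * ‖DD α β N₁ N₂ c t‖ ^ 2 * (DP (qf (Real.log T)) X t).re) +
      (C * (Real.log T) ^ 2 + ∑ n ∈ Finset.Icc 2 X, |qf (Real.log T) n|) *
        (sz α β N₁ N₂ c) ^ 2 * Real.exp (-(dd ^ 2) / (4 * H ^ 2)) *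
        (Real.sqrt (2 * Real.pi) * (Real.sqrt 2 * H)) := by
  set ℓ := Real.log T with hℓ
  have hℓ0 : 0 ≤ ℓ := by linarith
  set S := sz α β N₁ N₂ c with hS
  have hS0 : 0 ≤ S := sz_nonneg _ _ _ _ _
  set Qs := ∑ n ∈ Finset.Icc 2 X, |qf ℓ n| with hQs
  have hQ0 : 0 ≤ Qs := Finset.sum_nonneg fun _ _ => abs_nonneg _
  set D := DD α β N₁ N₂ c with hD
  have hDc : Continuous fun t => ‖D t‖ ^ 2 := (DD_cont α β N₁ N₂ c).norm.pow 2
  have hDb : ∀ t, ‖D t‖ ^ 2 ≤ S ^ 2 := fun t =>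
    pow_le_pow_left₀ (norm_nonneg _) (DD_norm_le α β N₁ N₂ c t) 2
  have hQc : Continuous fun t => (DP (qf ℓ) X t).re := Complex.continuous_re.comp (DP_cont _ _)
  have hQb : ∀ t, |(DP (qf ℓ) X t).re| ≤ Qs := fun t =>
    (Complex.abs_re_le_norm _).trans (DP_norm_le _ _ _)
  have hRc := RR_cont Z m ℓ
  have hRb := fun t => RR_abs hE hℓ0 t
  have hH2 : 0 < Real.sqrt 2 * H := by positivity
  set E := C * ℓ ^ 2 + Qs with hEdef
  have hE0 : 0 ≤ E := by positivity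
  set κ := Real.exp (-(dd ^ 2) / (4 * H ^ 2)) with hκ
  have hκ0 : 0 < κ := Real.exp_pos _
  -- integrability
  have i1 : Integrable fun t => om τ H t * (‖D t‖ ^ 2 * RR Z m ℓ t) := by
    refine om_mul_integrable (K := S ^ 2 * (ℓ * (C * ℓ))) hH (hDc.mul hRc) fun t => ?_
    rw [abs_mul, abs_of_nonneg (sq_nonneg _)]
    exact mul_le_mul (hDb t) (hRb t) (abs_nonneg _) (by positivity)
  have i2 : Integrable fun t => om τ H t * ‖D t‖ ^ 2 := by
    refine om_mul_integrable (K := S ^ 2) hH hDc fun t => ?_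
    rw [abs_of_nonneg (sq_nonneg _)]
    exact hDb t
  have i3 : Integrable fun t => om τ H t * (‖D t‖ ^ 2 * (DP (qf ℓ) X t).re) := by
    refine om_mul_integrable (K := S ^ 2 * Qs) hH (hDc.mul hQc) fun t => ?_
    rw [abs_mul, abs_of_nonneg (sq_nonneg _)]
    exact mul_le_mul (hDb t) (hQb t) (abs_nonneg _) (by positivity)
  have i1' : Integrable fun t => om τ H t * ‖D t‖ ^ 2 * RR Z m ℓ t := by
    simpa only [mul_assoc] using i1
  have i3' : Integrable fun t => om τ H t * ‖D t‖ ^ 2 * (DP (qf ℓ) X t).re := by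
    simpa only [mul_assoc] using i3
  have i4 : Integrable fun t => E * S ^ 2 * κ * om τ (Real.sqrt 2 * H) t :=
    (om_integrable τ _ hH2).const_mul _
  have i5 : Integrable fun t => (ℓ / 2 + 2 * C) * (om τ H t * ‖D t‖ ^ 2) := i2.const_mul _
  have hpt : ∀ t, om τ H t * ‖D t‖ ^ 2 * RR Z m ℓ t ≤
      (ℓ / 2 + 2 * C) * (om τ H t * ‖D t‖ ^ 2) - om τ H t * ‖D t‖ ^ 2 * (DP (qf ℓ) X t).re +
        E * S ^ 2 * κ * om τ (Real.sqrt 2 * H) t := by
    intro t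
    have hom := om_pos τ H t
    have hom2 := om_pos τ (Real.sqrt 2 * H) t
    have hw : 0 ≤ om τ H t * ‖D t‖ ^ 2 := by positivity
    by_cases hnear : T + ℓ ≤ t ∧ t ≤ 2 * T - ℓ
    · have h5 := RR_le hE hC h4 hnear.1 hnear.2 hX
      have h6 := mul_le_mul_of_nonneg_left h5 hw
      have h7 : 0 ≤ E * S ^ 2 * κ * om τ (Real.sqrt 2 * H) t := by positivity
      rw [← hℓ] at h6
      nlinarith
    · have hfar : dd ≤ |t - τ| := by
        rw [not_and_or, not_le, not_le] at hnear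
        rcases hnear with hn | hn
        · have : dd ≤ -(t - τ) := by linarith
          exact this.trans (neg_le_abs _)
        · have : dd ≤ t - τ := by linarith
          exact this.trans (le_abs_self _)
      have h5 := om_far hH hd hfar
      have h6 : RR Z m ℓ t - (ℓ / 2 + 2 * C) + (DP (qf ℓ) X t).re ≤ E := by
        have := (abs_le.1 (hRb t)).2
        have h8 := (abs_le.1 (hQb t)).2
        rw [hEdef]
        nlinarith
      have h7 : om τ H t * ‖D t‖ ^ 2 * (RR Z m ℓ t - (ℓ / 2 + 2 * C) + (DP (qf ℓ) X t).re) ≤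
          om τ H t * ‖D t‖ ^ 2 * E := mul_le_mul_of_nonneg_left h6 hw
      have h8 : om τ H t * ‖D t‖ ^ 2 * E ≤ (κ * om τ (Real.sqrt 2 * H) t) * S ^ 2 * E := by
        apply mul_le_mul_of_nonneg_right _ hE0
        exact mul_le_mul h5 (hDb t) (sq_nonneg _) (by positivity)
      nlinarith
  have i6 : Integrable fun t => (ℓ / 2 + 2 * C) * (om τ H t * ‖D t‖ ^ 2) -
      om τ H t * ‖D t‖ ^ 2 * (DP (qf ℓ) X t).re := i5.sub i3'
  have i7 : Integrable fun t => (ℓ / 2 + 2 * C) * (om τ H t * ‖D t‖ ^ 2) -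
      om τ H t * ‖D t‖ ^ 2 * (DP (qf ℓ) X t).re + E * S ^ 2 * κ * om τ (Real.sqrt 2 * H) t :=
    i6.add i4
  have h8 := integral_mono i1' i7 hpt
  refine h8.trans (le_of_eq ?_)
  rw [integral_add i6 i4, integral_sub i5 i3', integral_const_mul, integral_const_mul,
    om_integral _ _ hH2]

end TC
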