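import Pool.Agent.W198.TC.BlockB
import Pool.Agent.W198.TC.DMcore

open Complex Filter Topology Set MeasureTheory

namespace TC

lemma zero_adm : Adm 0 (fun _ => 0) where
  b0 := le_rfl
  b1 := zero_le_one
  meas := measurable_const
  bdd := ⟨0, fun _ => by simp⟩
  supp := fun _ _ => rfl
  zero := tendsto_const_nhds
  w1 := by simp
  w2 := by simp

lemma cf_zero (M : ℝ) (n : ℕ) : cf (fun _ => 0) M n = 0 := by
  unfold cf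
  simp

lemma mass (hDM : S_DM) (C ε : ℝ) (hC : 0 < C) (hε : 0 < ε) (hε1 : ε ≤ 1 / 10) :
    ∀ᶠ T : ℝ in atTop, ∀ (τ : ℝ) (Z : Finset ℝ) (m : ℝ → ℕ), EFD C T Z m →
      T + T ^ (1 - ε / 16) ≤ τ → τ ≤ 2 * T - T ^ (1 - ε / 16) →
      ∑ g ∈ Z, (m g : ℝ) * om τ (T ^ (1 - ε / 8)) g ≤
        Real.sqrt (2 * Real.pi) * T ^ (1 - ε / 8) * (Real.log T / (2 * Real.pi)) * 2 := by
  obtain ⟨T1, hT1⟩ := hDM C ε 0 0 1 1 (fun _ => 0) (fun _ => 0) hC hε hε1 (by norm_num) one_pos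
    zero_adm zero_adm
  filter_upwards [eventually_ge_atTop T1] with T hT τ Z m hE h1 h2
  have h := hT1 T τ hT Z m hE h1 h2
  have e : ∀ (N₁ N₂ : ℕ) (t : ℝ), DD (cf (fun _ => 0) ((1 - ε) * Real.log T))
      (cf (fun _ => 0) ((1 - ε) * Real.log T)) N₁ N₂ 1 t = 1 := by
    intro N₁ N₂ t
    unfold DD DP
    simp [cf_zero]
  simp only [e] at h
  simp only [norm_one, one_pow, mul_one, ne_eq, OfNat.ofNat_ne_zero, not_false_eq_true, zero_pow,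
    mul_zero, intervalIntegral.integral_zero, add_zero, zero_add, sub_zero] at h
  refine h.trans (le_of_eq ?_)
  ring

/-- the constant of the block bound -/
noncomputable def Kf {J : ℕ} (ct : Cert J) (s ε : ℝ) : ℝ :=
  (1 + ε) * (1 + 2 * ε) ^ 2 * (∑ j, (((∫ ξ in (0 : ℝ)..1, ξ * (ct.h₁ j ξ) ^ 2) +
      (∫ ξ in (0 : ℝ)..1, ξ * (ct.h₂ j ξ) ^ 2) + (ct.c s j) ^ 2 -
      2 * ct.c s j * (1 - ε) * ct.S j + ε) / ct.w j)) +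
    2 * ε * (2 * (|ct.p 0| + 2 * J) + 2 * (ct.E - s)) ^ 2 * 2

lemma Kf_cont {J : ℕ} (ct : Cert J) (s : ℝ) : Continuous (Kf ct s) := by
  unfold Kf
  fun_prop

lemma Kf_zero {J : ℕ} (ct : Cert J) (s : ℝ) : Kf ct s 0 = ct.VV + s ^ 2 := by
  unfold Kf Cert.VV
  have h1 : ∀ j, ((∫ ξ in (0 : ℝ)..1, ξ * (ct.h₁ j ξ) ^ 2) +
      (∫ ξ in (0 : ℝ)..1, ξ * (ct.h₂ j ξ) ^ 2) + (ct.c s j) ^ 2 -
      2 * ct.c s j * (1 - 0) * ct.S j + 0) / ct.w j = ct.V j / ct.w j + ct.w j * s ^ 2 := by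
    intro j
    have := (ct.w0 j).ne'
    unfold Cert.V Cert.c
    field_simp
    ring
  simp_rw [h1]
  rw [Finset.sum_add_distrib, ← Finset.sum_mul, ct.w1]
  ring

lemma exists_eps {f : ℝ → ℝ} (hf : Continuous f) {y : ℝ} (h0 : f 0 < y) :
    ∃ ε : ℝ, 0 < ε ∧ ε ≤ 1 / 10 ∧ f ε < y := by
  have h1 : ∀ᶠ ε in 𝓝 (0 : ℝ), f ε < y := hf.continuousAt.eventually (gt_mem_nhds h0)
  obtain ⟨d, hd, h2⟩ := Metric.eventually_nhds_iff.1 h1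
  refine ⟨min (d / 2) (1 / 10), by positivity, min_le_right _ _, h2 ?_⟩
  rw [Real.dist_eq, sub_zero, abs_of_pos (by positivity)]
  exact (min_le_left _ _).trans_lt (by linarith)

/-- bound at one `τ` -/
lemma tau_bound (hDM : S_DM) (hc : S_COEF) {J : ℕ} (ct : Cert J) (x Q s κ : ℝ) (Φ : ℕ → ℝ)
    (hQ0 : 0 < Q) (hQ : ∀ y : ℝ, |y| ≤ x → Q ≤ ct.Pf y) (hb : 0 ≤ ct.E - s)
    (hΦ : ∀ k : ℕ, Φ k * κ ≤ (max 0 (k * Q - (ct.E - s))) ^ 2)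
    (C ε : ℝ) (hC : 0 < C) (hε : 0 < ε) (hε1 : ε ≤ 1 / 10) :
    ∀ᶠ T : ℝ in atTop, ∀ (τ : ℝ) (Z : Finset ℝ) (m : ℝ → ℕ), EFD C T Z m →
      T + T ^ (1 - ε / 16) ≤ τ → τ ≤ 2 * T - T ^ (1 - ε / 16) →
      ∀ r : ℝ, 0 ≤ r → r * Real.log T ≤ x → ∀ F : Finset ℝ, F ⊆ Z →
      (∀ g ∈ F, T + Real.log T ≤ g ∧ g ≤ 2 * T - Real.log T) →
      ∑ g ∈ F, ((m g : ℝ) * (Φ (kk Z m r g) * κ)) * om τ (T ^ (1 - ε / 8)) g ≤
        Real.sqrt (2 * Real.pi) * T ^ (1 - ε / 8) * (Real.log T / (2 * Real.pi)) * Kf ct s ε := by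
  have h1 : ∀ j, ∀ᶠ T : ℝ in atTop, ∀ (τ : ℝ) (Z : Finset ℝ) (m : ℝ → ℕ), EFD C T Z m →
      T + T ^ (1 - ε / 16) ≤ τ → τ ≤ 2 * T - T ^ (1 - ε / 16) →
      ∑ g ∈ Z, (m g : ℝ) * (om τ (T ^ (1 - ε / 8)) g * ‖DJ ct s ε T j g‖ ^ 2) ≤
      Real.sqrt (2 * Real.pi) * T ^ (1 - ε / 8) * (Real.log T / (2 * Real.pi)) *
      ((∫ ξ in (0 : ℝ)..1, ξ * (ct.h₁ j ξ) ^ 2) + (∫ ξ in (0 : ℝ)..1, ξ * (ct.h₂ j ξ) ^ 2) +
        (ct.c s j) ^ 2 - 2 * ct.c s j * (1 - ε) * ct.S j + ε) := by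
    intro j
    obtain ⟨T1, hT1⟩ := hDM C ε (ct.b₁ j) (ct.b₂ j) (ct.c s j) ε (ct.h₁ j) (ct.h₂ j) hC hε hε1
      (ct.hb j) hε (ct.ad₁ j) (ct.ad₂ j)
    filter_upwards [eventually_ge_atTop T1] with T hT τ Z m hE a1 a2
    exact hT1 T τ hT Z m hE a1 a2
  have h2 := mass hDM C ε hC hε hε1
  have h3 := point_err hc ct s C ε hC hε hε1
  have h4 : ∀ᶠ T : ℝ in atTop, max 1 (|x| / ε) ≤ Real.log T :=
    Real.tendsto_log_atTop.eventually_ge_atTop _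
  filter_upwards [eventually_all.2 h1, h2, h3, h4, eventually_ge_atTop 1] with T k1 k2 k3 k4 k5
    τ Z m hE a1 a2 r hr0 hr F hF hFr
  set H := T ^ (1 - ε / 8) with hH
  set ℓ := Real.log T with hℓ
  have hℓ1 : 1 ≤ ℓ := (le_max_left _ _).trans k4
  have hxe : |x| / ε ≤ ℓ := (le_max_right _ _).trans k4
  have hT0 : 0 < T := by linarith
  have hpi := Real.pi_pos
  set b := ct.E - s with hbdef
  set c3 := |ct.p 0| + 2 * (J : ℝ) with hc3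
  have hc30 : 0 ≤ c3 := by positivity
  set W := Real.sqrt (2 * Real.pi) * H * (ℓ / (2 * Real.pi)) with hW
  have hq : r ^ 2 / 2 ≤ ε := by
    have h5 : r * ℓ ≤ ε * ℓ := by
      have : |x| ≤ ℓ * ε := by rwa [div_le_iff₀ hε] at hxe
      calc r * ℓ ≤ x := hr
        _ ≤ |x| := le_abs_self x
        _ ≤ _ := by linarith
    have h6 : r ≤ ε := le_of_mul_le_mul_right h5 (by linarith)
    nlinarith
  have hpoint : ∀ g ∈ F, Φ (kk Z m r g) * κ ≤ (1 + ε) * (1 + 2 * ε) ^ 2 *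
      (∑ j, ‖DJ ct s ε T j g‖ ^ 2 / ct.w j) + 2 * ε * (2 * c3 + 2 * b) ^ 2 := by
    intro g hg
    obtain ⟨g1, g2⟩ := hFr g hg
    have hM0 : 0 ≤ (1 - ε) * ℓ := mul_nonneg (by linarith) (by linarith)
    have p1 := PS_ge ct (Z := Z) (m := m) (M := (1 - ε) * ℓ) (t := g) (r := r) (x := x) (Q := Q)
      hM0 (by
        have : (1 - ε) * ℓ * r ≤ 1 * (ℓ * r) := by
          rw [mul_assoc]
          exact mul_le_mul_of_nonneg_right (by linarith) (by positivity)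
        linarith) hQ0.le hQ
    have p2 := k3 g Z m hE g1 g2
    have p3 := point_alg (k := kk Z m r g) (Q := Q) (b := b) (κ := κ) (φ := Φ (kk Z m r g))
      (A := ∑ j, (DJ ct s ε T j g).re) (q := r ^ 2 / 2) (c3 := c3) hQ0 hb hε hε1 hq p1
      (hΦ _) p2 le_rfl hc30
    refine p3.trans ?_
    have p4 := cs_w ct (fun j => DJ ct s ε T j g)
    have : 0 ≤ (1 + ε) * (1 + 2 * ε) ^ 2 := by positivity
    have := mul_le_mul_of_nonneg_left p4 this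
    linarith
  have hom := fun g => om_pos τ H g
  have s1 : ∑ g ∈ F, ((m g : ℝ) * (Φ (kk Z m r g) * κ)) * om τ H g ≤
      ∑ g ∈ F, ((m g : ℝ) * ((1 + ε) * (1 + 2 * ε) ^ 2 *
      (∑ j, ‖DJ ct s ε T j g‖ ^ 2 / ct.w j) + 2 * ε * (2 * c3 + 2 * b) ^ 2)) * om τ H g := by
    apply Finset.sum_le_sum
    intro g hg
    apply mul_le_mul_of_nonneg_right _ (hom g).le
    exact mul_le_mul_of_nonneg_left (hpoint g hg) (Nat.cast_nonneg _)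
  have s2 : ∑ g ∈ F, ((m g : ℝ) * ((1 + ε) * (1 + 2 * ε) ^ 2 *
      (∑ j, ‖DJ ct s ε T j g‖ ^ 2 / ct.w j) + 2 * ε * (2 * c3 + 2 * b) ^ 2)) * om τ H g ≤
      ∑ g ∈ Z, ((m g : ℝ) * ((1 + ε) * (1 + 2 * ε) ^ 2 *
      (∑ j, ‖DJ ct s ε T j g‖ ^ 2 / ct.w j) + 2 * ε * (2 * c3 + 2 * b) ^ 2)) * om τ H g := by
    apply Finset.sum_le_sum_of_subset_of_nonneg hF
    intro g _ _
    have hs : 0 ≤ ∑ j, ‖DJ ct s ε T j g‖ ^ 2 / ct.w j :=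
      Finset.sum_nonneg fun j _ => div_nonneg (sq_nonneg _) (ct.w0 j).le
    have := (hom g).le
    positivity
  have s3 : ∑ g ∈ Z, ((m g : ℝ) * ((1 + ε) * (1 + 2 * ε) ^ 2 *
      (∑ j, ‖DJ ct s ε T j g‖ ^ 2 / ct.w j) + 2 * ε * (2 * c3 + 2 * b) ^ 2)) * om τ H g =
      (1 + ε) * (1 + 2 * ε) ^ 2 * (∑ j, (∑ g ∈ Z, (m g : ℝ) * (om τ H g *
        ‖DJ ct s ε T j g‖ ^ 2)) / ct.w j) +
      2 * ε * (2 * c3 + 2 * b) ^ 2 * ∑ g ∈ Z, (m g : ℝ) * om τ H g := by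
    simp_rw [Finset.sum_div]
    rw [Finset.sum_comm, Finset.mul_sum, Finset.mul_sum, ← Finset.sum_add_distrib]
    apply Finset.sum_congr rfl
    intro g _
    have : ∑ j, (m g : ℝ) * (om τ H g * ‖DJ ct s ε T j g‖ ^ 2) / ct.w j =
        (m g : ℝ) * om τ H g * ∑ j, ‖DJ ct s ε T j g‖ ^ 2 / ct.w j := by
      rw [Finset.mul_sum]
      exact Finset.sum_congr rfl fun j _ => by ring
    rw [this]
    ring
  refine (s1.trans s2).trans (s3.le.trans ?_)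
  have s4 : ∑ j, (∑ g ∈ Z, (m g : ℝ) * (om τ H g * ‖DJ ct s ε T j g‖ ^ 2)) / ct.w j ≤
      W * ∑ j, (((∫ ξ in (0 : ℝ)..1, ξ * (ct.h₁ j ξ) ^ 2) +
      (∫ ξ in (0 : ℝ)..1, ξ * (ct.h₂ j ξ) ^ 2) + (ct.c s j) ^ 2 -
      2 * ct.c s j * (1 - ε) * ct.S j + ε) / ct.w j) := by
    rw [Finset.mul_sum]
    apply Finset.sum_le_sum
    intro j _
    rw [← mul_div_assoc]
    exact div_le_div_of_nonneg_right (k1 j τ Z m hE a1 a2) (ct.w0 j).le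
  have s5 := k2 τ Z m hE a1 a2
  unfold Kf
  rw [mul_add W]
  apply add_le_add
  · calc (1 + ε) * (1 + 2 * ε) ^ 2 * (∑ j, (∑ g ∈ Z, (m g : ℝ) * (om τ H g *
        ‖DJ ct s ε T j g‖ ^ 2)) / ct.w j) ≤ (1 + ε) * (1 + 2 * ε) ^ 2 * (W *
        ∑ j, (((∫ ξ in (0 : ℝ)..1, ξ * (ct.h₁ j ξ) ^ 2) +
      (∫ ξ in (0 : ℝ)..1, ξ * (ct.h₂ j ξ) ^ 2) + (ct.c s j) ^ 2 -
      2 * ct.c s j * (1 - ε) * ct.S j + ε) / ct.w j)) := by gcongr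
      _ = _ := by ring
  · calc 2 * ε * (2 * c3 + 2 * b) ^ 2 * ∑ g ∈ Z, (m g : ℝ) * om τ H g ≤
        2 * ε * (2 * c3 + 2 * b) ^ 2 * (W * 2) := by gcongr
      _ = _ := by ring

end TC
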