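import Pool.Agent.W198.TC.All

open Complex Filter Topology Set MeasureTheory

namespace TC

/-- grid -/
noncomputable def gr (L : ℕ) (k : ℕ) : ℝ := (k : ℝ) / L

lemma gr_mono {L : ℕ} (hL : 0 < L) : StrictMono (gr L) := by
  intro a b hab
  unfold gr
  have : (0 : ℝ) < L := by exact_mod_cast hL
  have h2 : (a : ℝ) < b := by exact_mod_cast hab
  gcongr

lemma gr_zero (L : ℕ) : gr L 0 = 0 := by simp [gr]

lemma gr_le {L k : ℕ} (hL : 0 < L) (h : k ≤ L) : gr L k ≤ 1 := by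
  unfold gr
  rw [div_le_one (by exact_mod_cast hL)]
  exact_mod_cast h

lemma pw_zero (c : ℕ → ℝ) (f : ℕ → ℝ → ℝ) : pw c f 0 = fun _ => 0 := by
  funext ξ
  simp [pw]

/-- value of a piecewise function -/
lemma pw_val {L : ℕ} (hL : 0 < L) (f : ℕ → ℝ → ℝ) (K k : ℕ) {ξ : ℝ} (h1 : gr L k ≤ ξ)
    (h2 : ξ < gr L (k + 1)) : pw (gr L) f K ξ = if k < K then f k ξ else 0 := by
  unfold pw
  have hm := gr_mono hL
  have key : ∀ i, i ≠ k → (Set.Ico (gr L i) (gr L (i + 1))).indicator (f i) ξ = 0 := by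
    intro i hi
    apply Set.indicator_of_notMem
    rintro ⟨a1, a2⟩
    rcases lt_or_gt_of_ne hi with h | h
    · have : gr L (i + 1) ≤ gr L k := hm.monotone (by omega)
      linarith
    · have : gr L (k + 1) ≤ gr L i := hm.monotone (by omega)
      linarith
  have key2 : (Set.Ico (gr L k) (gr L (k + 1))).indicator (f k) ξ = f k ξ :=
    Set.indicator_of_mem (show ξ ∈ Set.Ico (gr L k) (gr L (k + 1)) from ⟨h1, h2⟩) _
  split_ifs with hk
  · rw [Finset.sum_eq_single k (fun i _ hi => key i hi)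
      (fun h => absurd (Finset.mem_range.2 hk) h), key2]
  · apply Finset.sum_eq_zero
    intro i hi
    have : i < K := Finset.mem_range.1 hi
    exact key i (by omega)

/-- windows -/
noncomputable def hA (L : ℕ) (B : ℕ → ℕ → ℝ) (p : ℝ → ℝ) (j : ℕ) : ℝ → ℝ :=
  pw (gr L) (fun k ξ => ((if k < j then 1 / 2 else 1) * B j k) * p ξ) (L - j)

noncomputable def hB (L : ℕ) (B : ℕ → ℕ → ℝ) (p : ℝ → ℝ) (j : ℕ) : ℝ → ℝ :=
  pw (gr L) (fun k ξ => (1 / 2 * B j k) * p ξ) j

lemma adA {L : ℕ} (B : ℕ → ℕ → ℝ) {p : ℝ → ℝ} (hp : Continuous p) {j : ℕ} (hj : j < L) :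
    Adm (gr L (L - j)) (hA L B p j) :=
  admT (gr L) _ (L - j) (by omega) (gr_mono (by omega)) (gr_zero L) (gr_le (by omega) (by omega))
    (fun _ => continuous_const.mul hp)

lemma adB {L : ℕ} (B : ℕ → ℕ → ℝ) {p : ℝ → ℝ} (hp : Continuous p) {j : ℕ} (hj : j < L) :
    Adm (gr L j) (hB L B p j) := by
  rcases Nat.eq_zero_or_pos j with rfl | h0
  · have e : hB L B p 0 = fun _ => 0 := pw_zero _ _
    rw [e, gr_zero]
    exact zero_adm
  · exact admT (gr L) _ j h0 (gr_mono (by omega)) (gr_zero L) (gr_le (by omega) (by omega))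
      (fun _ => continuous_const.mul hp)

lemma exists_cell {L : ℕ} (hL : 0 < L) {ξ : ℝ} (h0 : 0 ≤ ξ) (h1 : ξ < 1) :
    ∃ k, k < L ∧ gr L k ≤ ξ ∧ ξ < gr L (k + 1) := by
  have hL' : (0 : ℝ) < L := by exact_mod_cast hL
  refine ⟨⌊ξ * L⌋₊, ?_, ?_, ?_⟩
  · have h2 : (⌊ξ * L⌋₊ : ℝ) ≤ ξ * L := Nat.floor_le (by positivity)
    have h3 : ξ * L < L := by nlinarith
    exact_mod_cast h2.trans_lt h3
  · unfold gr
    rw [div_le_iff₀ hL']
    exact Nat.floor_le (by positivity)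
  · unfold gr
    rw [lt_div_iff₀ hL']
    push_cast
    exact Nat.lt_floor_add_one _

/-- the certificate built from a table -/
noncomputable def mkCert (L J : ℕ) (hL : 0 < L) (hJ : 2 * J ≤ L + 2)
    (B : ℕ → ℕ → ℝ) (w : ℕ → ℝ) (p : ℝ → ℝ) (hp : Continuous p)
    (hw0 : ∀ j < J, 0 < w j) (hw1 : ∑ j ∈ Finset.range J, w j = 1)
    (hB1 : ∀ k < L, ∑ j ∈ Finset.range J, (if k < L - j then B j k else 0) = 1)
    (hpos : ∀ x : ℝ, 0 ≤ ∫ ξ in (0 : ℝ)..1, p ξ * Real.cos (x * ξ)) : Cert J where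
  b₁ j := gr L (L - j)
  b₂ j := gr L j
  h₁ j := hA L B p j
  h₂ j := hB L B p j
  w j := w j
  p := p
  hb j := by
    have hj : (j : ℕ) ≤ L := by omega
    have hL' : (0 : ℝ) < L := by exact_mod_cast hL
    unfold gr
    rw [Nat.cast_sub hj, ← add_div, div_le_one hL']
    linarith
  ad₁ j := adA B hp (by omega)
  ad₂ j := adB B hp (by omega)
  w0 j := hw0 j j.2
  w1 := by rw [Fin.sum_univ_eq_sum_range (fun j => w j)]; exact hw1
  pc := hp
  sum ξ h0 h1 := by
    obtain ⟨k, hk, hk1, hk2⟩ := exists_cell hL h0 h1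
    rw [Fin.sum_univ_eq_sum_range (fun j => hA L B p j ξ + hB L B p j ξ) J]
    have e : ∀ j ∈ Finset.range J, hA L B p j ξ + hB L B p j ξ =
        (if k < L - j then B j k else 0) * p ξ := by
      intro j hj
      have hj' : j < J := Finset.mem_range.1 hj
      unfold hA hB
      rw [pw_val hL _ _ k hk1 hk2, pw_val hL _ _ k hk1 hk2]
      by_cases a1 : k < j
      · have a2 : k < L - j := by omega
        rw [if_pos a1, if_pos a2, if_pos a1, if_pos a2]
        ring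
      · rw [if_neg a1, if_neg a1]
        split_ifs <;> ring
    rw [Finset.sum_congr rfl e, ← Finset.sum_mul, hB1 k hk, one_mul]
  pos := hpos

end TC
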