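import Pool.Agent.W198.TC.CertGen
import Pool.Agent.W32.TC.Pos

open Complex Filter Topology Set MeasureTheory

namespace TC

/-- numerators (over 1000) of the table of the certificate -/
def Btab : List (List ℕ) := [[94,98,106,111,119,123,133,142,152,163,179,195,214,239,271,311,365,446,590,1000],
  [132,71,75,79,83,89,94,101,108,116,127,138,153,170,192,220,258,313,410],
  [104,112,59,62,66,70,74,80,85,92,101,109,120,134,150,172,200,241],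
  [94,100,106,56,59,63,67,71,77,82,90,97,107,119,134,152,177],
  [90,97,102,108,57,61,64,69,74,79,87,94,103,114,128,145],
  [89,96,101,107,113,60,64,68,73,78,86,92,101,112,125],
  [89,96,101,107,113,120,64,68,73,78,85,92,101,112],
  [89,96,102,107,113,120,128,68,73,78,85,92,101],
  [88,95,100,106,112,119,126,135,72,77,84,91],
  [80,85,90,96,101,107,114,121,130,69,76],
  [51,54,58,61,64,68,72,77,83,88]]

/-- numerators (over 1000) of the weights -/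
def wtab : List ℕ := [161,115,93,85,83,83,84,85,85,77,49]

def Bq (j k : ℕ) : ℚ := (((Btab.getD j []).getD k 0 : ℕ) : ℚ) / 1000
def wq (j : ℕ) : ℚ := ((wtab.getD j 1 : ℕ) : ℚ) / 1000

/-- coefficients of `pp (7/5)` -/
def a0 : ℚ := 2 - (7/5) / 3 + (7/5) ^ 2 / 40
def a1 : ℚ := -2 + 7/5 - (7/5) ^ 2 / 8
def a2 : ℚ := -2 * (7/5) + (7/5) ^ 2 / 6
def a3 : ℚ := 4 * (7/5) / 3
def a5 : ℚ := -(7/5) ^ 2 / 15

/-- antiderivative of `ξ p` -/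
def P1q (x : ℚ) : ℚ := a0 / 2 * x ^ 2 + a1 / 3 * x ^ 3 + a2 / 4 * x ^ 4 + a3 / 5 * x ^ 5 + a5 / 7 * x ^ 7

/-- antiderivative of `ξ p²` -/
def P2q (x : ℚ) : ℚ := a0 ^ 2 / 2 * x ^ 2 + 2 * a0 * a1 / 3 * x ^ 3 + (a1 ^ 2 + 2 * a0 * a2) / 4 * x ^ 4 +
  (2 * a0 * a3 + 2 * a1 * a2) / 5 * x ^ 5 + (a2 ^ 2 + 2 * a1 * a3) / 6 * x ^ 6 +
  (2 * a2 * a3 + 2 * a0 * a5) / 7 * x ^ 7 + (a3 ^ 2 + 2 * a1 * a5) / 8 * x ^ 8 +
  2 * a2 * a5 / 9 * x ^ 9 + 2 * a3 * a5 / 10 * x ^ 10 + a5 ^ 2 / 12 * x ^ 12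

noncomputable def pr : ℝ → ℝ := Pool.Agent.W32.TC.pp (7 / 5)

lemma pr_eq (x : ℝ) : pr x = (a0 : ℝ) + a1 * x + a2 * x ^ 2 + a3 * x ^ 3 + a5 * x ^ 5 := by
  unfold pr
  rw [Pool.Agent.W32.TC.pp_eq]
  unfold a0 a1 a2 a3 a5
  push_cast
  ring

lemma pr_cont : Continuous pr := by
  have : pr = fun x => (a0 : ℝ) + a1 * x + a2 * x ^ 2 + a3 * x ^ 3 + a5 * x ^ 5 := funext pr_eq
  rw [this]
  fun_prop

lemma dmono (a : ℝ) (n : ℕ) (x : ℝ) : HasDerivAt (fun x : ℝ => a * x ^ (n + 1)) (a * ((n + 1) * x ^ n)) x := by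
  have h := (hasDerivAt_pow (n + 1) x).const_mul a
  simpa using h

/-- real versions -/
noncomputable def P1r (x : ℝ) : ℝ := (a0 / 2 : ℚ) * x ^ 2 + (a1 / 3 : ℚ) * x ^ 3 + (a2 / 4 : ℚ) * x ^ 4 +
  (a3 / 5 : ℚ) * x ^ 5 + (a5 / 7 : ℚ) * x ^ 7

noncomputable def P2r (x : ℝ) : ℝ := (a0 ^ 2 / 2 : ℚ) * x ^ 2 + (2 * a0 * a1 / 3 : ℚ) * x ^ 3 +
  ((a1 ^ 2 + 2 * a0 * a2) / 4 : ℚ) * x ^ 4 +
  ((2 * a0 * a3 + 2 * a1 * a2) / 5 : ℚ) * x ^ 5 + ((a2 ^ 2 + 2 * a1 * a3) / 6 : ℚ) * x ^ 6 +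
  ((2 * a2 * a3 + 2 * a0 * a5) / 7 : ℚ) * x ^ 7 + ((a3 ^ 2 + 2 * a1 * a5) / 8 : ℚ) * x ^ 8 +
  (2 * a2 * a5 / 9 : ℚ) * x ^ 9 + (2 * a3 * a5 / 10 : ℚ) * x ^ 10 + (a5 ^ 2 / 12 : ℚ) * x ^ 12

lemma P1r_cast (x : ℚ) : P1r (x : ℝ) = (P1q x : ℝ) := by
  unfold P1r P1q
  push_cast
  ring

lemma P2r_cast (x : ℚ) : P2r (x : ℝ) = (P2q x : ℝ) := by
  unfold P2r P2q
  push_cast
  ring

lemma P1r_deriv (x : ℝ) : HasDerivAt P1r (x * pr x) x := by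
  have h := ((((dmono ((a0 / 2 : ℚ) : ℝ) 1 x).add (dmono ((a1 / 3 : ℚ) : ℝ) 2 x)).add
    (dmono ((a2 / 4 : ℚ) : ℝ) 3 x)).add (dmono ((a3 / 5 : ℚ) : ℝ) 4 x)).add
    (dmono ((a5 / 7 : ℚ) : ℝ) 6 x)
  refine h.congr_deriv ?_
  rw [pr_eq]
  push_cast
  ring

lemma P2r_deriv (x : ℝ) : HasDerivAt P2r (x * pr x ^ 2) x := by
  have h := (((((((((dmono ((a0 ^ 2 / 2 : ℚ) : ℝ) 1 x).add (dmono ((2 * a0 * a1 / 3 : ℚ) : ℝ) 2 x)).add
    (dmono (((a1 ^ 2 + 2 * a0 * a2) / 4 : ℚ) : ℝ) 3 x)).add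
    (dmono (((2 * a0 * a3 + 2 * a1 * a2) / 5 : ℚ) : ℝ) 4 x)).add
    (dmono (((a2 ^ 2 + 2 * a1 * a3) / 6 : ℚ) : ℝ) 5 x)).add
    (dmono (((2 * a2 * a3 + 2 * a0 * a5) / 7 : ℚ) : ℝ) 6 x)).add
    (dmono (((a3 ^ 2 + 2 * a1 * a5) / 8 : ℚ) : ℝ) 7 x)).add
    (dmono ((2 * a2 * a5 / 9 : ℚ) : ℝ) 8 x)).add
    (dmono ((2 * a3 * a5 / 10 : ℚ) : ℝ) 9 x)).add
    (dmono ((a5 ^ 2 / 12 : ℚ) : ℝ) 11 x)
  refine h.congr_deriv ?_
  rw [pr_eq]
  push_cast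
  ring

def J1q (k : ℕ) : ℚ := P1q ((k + 1) / 20) - P1q (k / 20)
def J2q (k : ℕ) : ℚ := P2q ((k + 1) / 20) - P2q (k / 20)

lemma gr_cast (k : ℕ) : gr 20 k = (((k : ℚ) / 20 : ℚ) : ℝ) := by
  unfold gr
  push_cast
  ring

lemma J1_eq (k : ℕ) : ∫ ξ in (gr 20 k)..(gr 20 (k + 1)), ξ * pr ξ = (J1q k : ℝ) := by
  rw [intervalIntegral.integral_eq_sub_of_hasDerivAt (fun x _ => P1r_deriv x)
    ((continuous_id.mul pr_cont).intervalIntegrable _ _), gr_cast, gr_cast, P1r_cast, P1r_cast]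
  unfold J1q
  push_cast
  ring

lemma J2_eq (k : ℕ) : ∫ ξ in (gr 20 k)..(gr 20 (k + 1)), ξ * pr ξ ^ 2 = (J2q k : ℝ) := by
  rw [intervalIntegral.integral_eq_sub_of_hasDerivAt (fun x _ => P2r_deriv x)
    ((continuous_id.mul (pr_cont.pow 2)).intervalIntegrable _ _), gr_cast, gr_cast, P2r_cast,
    P2r_cast]
  unfold J2q
  push_cast
  ring

/-- integrals of a piecewise multiple of `pr` -/
lemma pw_int1 (q : ℕ → ℝ) (K : ℕ) (hK : K ≤ 20) :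
    ∫ ξ in (0 : ℝ)..1, ξ * pw (gr 20) (fun k ξ => q k * pr ξ) K ξ =
      ∑ k ∈ Finset.range K, q k * (J1q k : ℝ) := by
  rw [(pwi (gr 20) (fun k ξ => q k * pr ξ) K (gr_mono (by norm_num)) (gr_zero 20)
    (gr_le (by norm_num) hK) (fun _ => continuous_const.mul pr_cont)).1]
  apply Finset.sum_congr rfl
  intro k _
  rw [← J1_eq, ← intervalIntegral.integral_const_mul]
  apply intervalIntegral.integral_congr
  intro ξ _
  simp only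
  ring

lemma pw_int2 (q : ℕ → ℝ) (K : ℕ) (hK : K ≤ 20) :
    ∫ ξ in (0 : ℝ)..1, ξ * (pw (gr 20) (fun k ξ => q k * pr ξ) K ξ) ^ 2 =
      ∑ k ∈ Finset.range K, q k ^ 2 * (J2q k : ℝ) := by
  rw [(pwi (gr 20) (fun k ξ => q k * pr ξ) K (gr_mono (by norm_num)) (gr_zero 20)
    (gr_le (by norm_num) hK) (fun _ => continuous_const.mul pr_cont)).2]
  apply Finset.sum_congr rfl
  intro k _
  rw [← J2_eq, ← intervalIntegral.integral_const_mul]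
  apply intervalIntegral.integral_congr
  intro ξ _
  simp only
  ring

noncomputable def Br (j k : ℕ) : ℝ := (Bq j k : ℝ)
noncomputable def wr (j : ℕ) : ℝ := (wq j : ℝ)

lemma wq_pos : ∀ j < 11, 0 < wq j := by decide +kernel
lemma wq_sum : ∑ j ∈ Finset.range 11, wq j = 1 := by decide +kernel
lemma Bq_sum : ∀ k < 20, ∑ j ∈ Finset.range 11, (if k < 20 - j then Bq j k else 0) = 1 := by
  decide +kernel

/-- the certificate -/
noncomputable def ct : Cert 11 := mkCert 20 11 (by norm_num) (by norm_num) Br wr pr pr_cont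
  (fun j hj => by unfold wr; exact_mod_cast wq_pos j hj)
  (by unfold wr; exact_mod_cast wq_sum)
  (fun k hk => by
    have h := Bq_sum k hk
    have e : ∀ j ∈ Finset.range 11, (if k < 20 - j then Br j k else 0) =
        (((if k < 20 - j then Bq j k else 0 : ℚ)) : ℝ) := by
      intro j _
      unfold Br
      split_ifs <;> simp
    rw [Finset.sum_congr rfl e, ← Rat.cast_sum, h, Rat.cast_one])
  (fun x => by
    unfold pr
    rw [Pool.Agent.W32.TC.pos_sq]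
    exact sq_nonneg _)

def Sq (j : ℕ) : ℚ := (∑ k ∈ Finset.range (20 - j), ((if k < j then 1 / 2 else 1) * Bq j k) * J1q k) +
  ∑ k ∈ Finset.range j, (1 / 2 * Bq j k) * J1q k

def Vq (j : ℕ) : ℚ := (∑ k ∈ Finset.range (20 - j), ((if k < j then 1 / 2 else 1) * Bq j k) ^ 2 * J2q k) +
  (∑ k ∈ Finset.range j, (1 / 2 * Bq j k) ^ 2 * J2q k) - Sq j ^ 2

lemma ct_S (j : Fin 11) : ct.S j = (Sq j : ℝ) := by
  have h1 : ct.h₁ j = pw (gr 20) (fun k ξ => ((if k < (j : ℕ) then 1 / 2 else 1) * Br j k) * pr ξ)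
    (20 - j) := rfl
  have h2 : ct.h₂ j = pw (gr 20) (fun k ξ => (1 / 2 * Br j k) * pr ξ) j := rfl
  unfold Cert.S
  rw [h1, h2, pw_int1 (fun k => (if k < (j : ℕ) then 1 / 2 else 1) * Br j k) (20 - j) (by omega),
    pw_int1 (fun k => 1 / 2 * Br j k) j (by omega)]
  unfold Sq Br
  have e : ∀ k, (((if k < (j : ℕ) then 1 / 2 else 1 : ℚ)) : ℝ) =
      if k < (j : ℕ) then 1 / 2 else 1 := by
    intro k
    split_ifs <;> norm_num
  push_cast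
  simp_rw [e]

lemma ct_V (j : Fin 11) : ct.V j = (Vq j : ℝ) := by
  have h1 : ct.h₁ j = pw (gr 20) (fun k ξ => ((if k < (j : ℕ) then 1 / 2 else 1) * Br j k) * pr ξ)
    (20 - j) := rfl
  have h2 : ct.h₂ j = pw (gr 20) (fun k ξ => (1 / 2 * Br j k) * pr ξ) j := rfl
  unfold Cert.V
  rw [ct_S, h1, h2, pw_int2 (fun k => (if k < (j : ℕ) then 1 / 2 else 1) * Br j k) (20 - j)
    (by omega), pw_int2 (fun k => 1 / 2 * Br j k) j (by omega)]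
  unfold Vq Br
  have e : ∀ k, (((if k < (j : ℕ) then 1 / 2 else 1 : ℚ)) : ℝ) =
      if k < (j : ℕ) then 1 / 2 else 1 := by
    intro k
    split_ifs <;> norm_num
  push_cast
  simp_rw [e]

lemma VVq_le : ∑ j ∈ Finset.range 11, Vq j / wq j ≤ 12080 / 100000 := by decide +kernel

lemma ct_VV : ct.VV ≤ 12080 / 100000 := by
  have e : ct.VV = ((∑ j ∈ Finset.range 11, Vq j / wq j : ℚ) : ℝ) := by
    unfold Cert.VV
    simp_rw [ct_V]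
    rw [Rat.cast_sum, ← Fin.sum_univ_eq_sum_range (fun j => ((Vq j / wq j : ℚ) : ℝ)) 11]
    apply Finset.sum_congr rfl
    intro j _
    rw [Rat.cast_div]
    rfl
  rw [e]
  have h := VVq_le
  have h2 : ((∑ j ∈ Finset.range 11, Vq j / wq j : ℚ) : ℝ) ≤ ((12080 / 100000 : ℚ) : ℝ) := by
    exact_mod_cast h
  refine h2.trans (le_of_eq ?_)
  norm_num

lemma ct_E : ct.E = 1037 / 1000 := by
  unfold Cert.E
  have h1 : ct.p = pr := rfl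
  rw [h1]
  have h2 : ∫ ξ in (0 : ℝ)..1, ξ * pr ξ = P1r 1 - P1r 0 :=
    intervalIntegral.integral_eq_sub_of_hasDerivAt (fun x _ => P1r_deriv x)
      ((continuous_id.mul pr_cont).intervalIntegrable _ _)
  rw [h2, pr_eq]
  unfold P1r a0 a1 a2 a3 a5
  push_cast
  norm_num

end TC
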