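import Pool.Agent.W198.TC.DMcore
import Pool.Agent.W198.TC.Asym
import Pool.Agent.W198.TC.Stms2

open Complex Filter Topology Set MeasureTheory

namespace TC

lemma sum_cf_abs {h : ℝ → ℝ} {B M : ℝ} (hB : ∀ ξ, |h ξ| ≤ B) (hM : 1 ≤ M) (N : ℕ) :
    ∑ n ∈ Finset.Icc 2 N, |cf h M n| ≤ 2 * B * N := by
  have hB0 : 0 ≤ B := (abs_nonneg _).trans (hB 0)
  have h1 : ∀ n ∈ Finset.Icc 2 N, |cf h M n| ≤ 2 * B := by
    intro n _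
    refine (cf_abs hB (by linarith) n).trans ?_
    have h2 := lam_le_two n
    have h3 := lam_nonneg n
    have h4 : B / M ≤ B := div_le_self hB0 hM
    have h5 : 0 ≤ B / M := by positivity
    nlinarith
  refine (Finset.sum_le_card_nsmul _ _ _ h1).trans ?_
  rw [nsmul_eq_mul, Nat.card_Icc, mul_comm]
  apply mul_le_mul_of_nonneg_left _ (by positivity)
  have : N + 1 - 2 ≤ N := by omega
  exact_mod_cast this

lemma sum_qf_abs {ℓ : ℝ} (hℓ : 0 ≤ ℓ) (N : ℕ) :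
    ∑ n ∈ Finset.Icc 2 N, |qf ℓ n| ≤ 2 * N := by
  have h1 : ∀ n ∈ Finset.Icc 2 N, |qf ℓ n| ≤ 2 := fun n _ =>
    (qf_abs hℓ n).trans (lam_le_two n)
  refine (Finset.sum_le_card_nsmul _ _ _ h1).trans ?_
  rw [nsmul_eq_mul, Nat.card_Icc, mul_comm]
  apply mul_le_mul_of_nonneg_left _ (by positivity)
  have : N + 1 - 2 ≤ N := by omega
  exact_mod_cast this

lemma floor_facts {T x : ℝ} (hT : 1 ≤ T) (hx0 : 0 ≤ x) : 1 ≤ ⌊T ^ x⌋₊ ∧ (⌊T ^ x⌋₊ : ℝ) ≤ T ^ x ∧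
    x * Real.log T ≤ Real.log (⌊T ^ x⌋₊ + 1) := by
  have hT0 : 0 < T := by linarith
  have h1 : 1 ≤ T ^ x := Real.one_le_rpow hT hx0
  refine ⟨(Nat.one_le_floor_iff _).2 h1, Nat.floor_le (by linarith), ?_⟩
  rw [← Real.log_rpow hT0]
  exact Real.log_le_log (by linarith) (Nat.lt_floor_add_one _).le

/-- the final elementary inequality of `dm` -/
lemma dm_final {W ℓ C V c ε S A1 Bq M e1 e2 e3 e4 η η1 η2 I1 I2 : ℝ} (hW : 0 < W) (hℓ : 0 < ℓ)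
    (hC : 0 < C) (hη1 : 0 ≤ η1) (hη2 : 0 ≤ η2) (hA : A1 ≤ V + 2 * η1 + c ^ 2)
    (hM : M = (1 - ε) * ℓ) (hε : 0 < ε) (hε1 : ε ≤ 1 / 10)
    (hB : |(1 / M) * Bq - S| ≤ 2 * η1)
    (hI1 : I1 ≤ W * (A1 + e1)) (he1 : e1 ≤ η2) (hI2 : W * (c * Bq) - W * e2 ≤ I2) (he2 : e2 ≤ 2 * η2)
    (he3 : e3 ≤ W * η2) (he4 : e4 ≤ W * η2)
    (hsmall : 2 * η1 + η2 + 4 * |c| * η1 ≤ η / 2)
    (hbig : 2 * C * (V + c ^ 2 + 2 * η1 + η2) + 7 * η2 ≤ ℓ / 2 * (η / 2)) :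
    1 / Real.pi * ((ℓ / 2 + 2 * C) * I1 - I2 + e3) + e4 ≤
      W * (ℓ / (2 * Real.pi)) * (V + c ^ 2 - 2 * c * (1 - ε) * S + η) := by
  have hpi := Real.pi_pos
  have hpi4 := Real.pi_le_four
  have hM0 : 0 < M := by rw [hM]; exact mul_pos (by linarith) hℓ
  have hMℓ : M ≤ ℓ := by rw [hM]; nlinarith
  have h1 : |Bq - M * S| ≤ 2 * η1 * M := by
    have e : Bq - M * S = M * ((1 / M) * Bq - S) := by field_simp
    rw [e, abs_mul, abs_of_pos hM0]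
    nlinarith
  have h2 : |c * Bq - c * (M * S)| ≤ 2 * |c| * η1 * ℓ := by
    rw [← mul_sub, abs_mul]
    have : |c| * |Bq - M * S| ≤ |c| * (2 * η1 * M) := mul_le_mul_of_nonneg_left h1 (abs_nonneg _)
    have h3 : |c| * (2 * η1 * M) ≤ |c| * (2 * η1 * ℓ) := by gcongr
    linarith
  have h3 := (abs_le.1 h2).1
  have hk : 0 < ℓ / 2 + 2 * C := by linarith
  have hI1' : I1 ≤ W * (V + 2 * η1 + c ^ 2 + η2) := by
    refine hI1.trans ?_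
    gcongr
  have key : (ℓ / 2 + 2 * C) * I1 - I2 + e3 + Real.pi * e4 ≤
      W * ((ℓ / 2 + 2 * C) * (V + 2 * η1 + c ^ 2 + η2) - (c * (M * S) - 2 * |c| * η1 * ℓ) +
        2 * η2 + η2 + 4 * η2) := by
    have k1 := mul_le_mul_of_nonneg_left hI1' hk.le
    have k2 : W * (c * (M * S) - 2 * |c| * η1 * ℓ) ≤ W * (c * Bq) :=
      mul_le_mul_of_nonneg_left (by linarith) hW.le
    have k3 : W * e2 ≤ W * (2 * η2) := mul_le_mul_of_nonneg_left he2 hW.le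
    have k4 : Real.pi * e4 ≤ 4 * (W * η2) := by
      have : Real.pi * e4 ≤ Real.pi * (W * η2) := mul_le_mul_of_nonneg_left he4 hpi.le
      have k5 : Real.pi * (W * η2) ≤ 4 * (W * η2) :=
        mul_le_mul_of_nonneg_right hpi4 (by positivity)
      linarith
    nlinarith
  have key2 : (ℓ / 2 + 2 * C) * (V + 2 * η1 + c ^ 2 + η2) - (c * (M * S) - 2 * |c| * η1 * ℓ) +
        2 * η2 + η2 + 4 * η2 ≤ ℓ / 2 * (V + c ^ 2 - 2 * c * (1 - ε) * S + η) := by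
    have hs := mul_le_mul_of_nonneg_left hsmall (by linarith : 0 ≤ ℓ / 2)
    rw [hM]
    nlinarith
  have key3 := mul_le_mul_of_nonneg_left key2 hW.le
  have e : 1 / Real.pi * ((ℓ / 2 + 2 * C) * I1 - I2 + e3) + e4 =
      ((ℓ / 2 + 2 * C) * I1 - I2 + e3 + Real.pi * e4) / Real.pi := by
    field_simp
  rw [e, div_le_iff₀ hpi]
  refine (key.trans key3).trans (le_of_eq ?_)
  field_simp

lemma ax1 {ε b : ℝ} (hε : 0 < ε) (hε1 : ε ≤ 1 / 10) (hb : 0 ≤ b) : 0 ≤ (1 - ε) * b + ε / 8 := by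
  have : 0 ≤ (1 - ε) * b := mul_nonneg (by linarith) hb
  linarith

lemma ax2 {ε b : ℝ} (hε : 0 < ε) (hε1 : ε ≤ 1 / 10) (hb : b ≤ 1) : (1 - ε) * b + ε / 8 ≤ 1 := by
  have : (1 - ε) * b ≤ (1 - ε) * 1 := mul_le_mul_of_nonneg_left hb (by linarith)
  linarith

lemma ax3 {ε b₁ b₂ : ℝ} (hε1 : ε ≤ 1 / 10) (hb : b₁ + b₂ ≤ 1) :
    ((1 - ε) * b₁ + ε / 8) + ((1 - ε) * b₂ + ε / 8) ≤ 1 - 3 * ε / 4 := by
  have : (1 - ε) * (b₁ + b₂) ≤ (1 - ε) * 1 := mul_le_mul_of_nonneg_left hb (by linarith)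
  linarith

lemma ax4 {x y : ℝ} (hx : 1 ≤ x) (hy : 1 ≤ y) : 1 ≤ x * y := one_le_mul_of_one_le_of_one_le hx hy

lemma ax5 {Q X Y : ℝ} (h1 : Q ≤ 2 * X) (h2 : X ≤ Y) : Q ≤ 2 * Y := by linarith

lemma ax6 {K T : ℝ} (h : T ^ 2 ≤ T ^ 5) : K ^ 2 * T ^ 2 ≤ K ^ 2 * 2 * T ^ 5 := by
  have h1 := mul_le_mul_of_nonneg_left h (sq_nonneg K)
  have h2 : 0 ≤ K ^ 2 * T ^ 2 := by positivity
  linarith

lemma ax7 {C0 B M η : ℝ} (hC : 0 < C0) (hB : 0 ≤ B) (hη : 0 < η) (hM0 : 0 < M)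
    (hM : B * (C0 + 1) / η + B ≤ M) : C0 * (B / M) ^ 2 ≤ η := by
  have k1 : B ≤ M := by
    have : 0 ≤ B * (C0 + 1) / η := by positivity
    linarith
  have k2 : B * (C0 + 1) ≤ M * η := by
    have : B * (C0 + 1) / η ≤ M := by linarith
    rwa [div_le_iff₀ hη] at this
  rw [div_pow, ← mul_div_assoc, div_le_iff₀ (by positivity)]
  have k3 : C0 * B ^ 2 ≤ (B * (C0 + 1)) * B := by nlinarith
  have k4 : (B * (C0 + 1)) * B ≤ (M * η) * M := by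
    apply mul_le_mul k2 k1 hB (by positivity)
  nlinarith

lemma ax8 {C ℓ Q T : ℝ} (hC : 0 < C) (h1 : ℓ ^ 2 ≤ T ^ 3) (h2 : Q ≤ 2 * T ^ 3) :
    C * ℓ ^ 2 + Q ≤ (C + 2) * T ^ 3 := by nlinarith

lemma ax9 {C T ℓ s0 : ℝ} (hC : 0 < C) (hT : 0 < T) (h : s0 ≤ C * T * ℓ) (hl : ℓ ≤ T) :
    s0 ≤ C * T ^ 2 := by
  have : C * T * ℓ ≤ C * T * T := mul_le_mul_of_nonneg_left hl (by positivity)
  nlinarith

lemma ax10 {x η W : ℝ} (h : x ≤ η) (hη : 0 < η) (hW : 1 ≤ W) : x ≤ W * η := by nlinarith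

lemma ax11 {ε ℓ : ℝ} (hε : 0 < ε) (hε1 : ε ≤ 1 / 10) (hl : 0 < ℓ) :
    (1 + ε / 8) * ((1 - ε) * ℓ) ≤ ℓ := by
  have h1 : (1 + ε / 8) * (1 - ε) ≤ 1 := by nlinarith
  calc (1 + ε / 8) * ((1 - ε) * ℓ) = ((1 + ε / 8) * (1 - ε)) * ℓ := by ring
    _ ≤ 1 * ℓ := mul_le_mul_of_nonneg_right h1 hl.le
    _ = ℓ := one_mul _

lemma ax12 {ε b ℓ : ℝ} (hε : 0 < ε) (hl : 0 < ℓ) :
    (b + ε / 8) * ((1 - ε) * ℓ) ≤ ((1 - ε) * b + ε / 8) * ℓ := by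
  have h1 : (b + ε / 8) * (1 - ε) ≤ (1 - ε) * b + ε / 8 := by nlinarith
  calc (b + ε / 8) * ((1 - ε) * ℓ) = ((b + ε / 8) * (1 - ε)) * ℓ := by ring
    _ ≤ _ := mul_le_mul_of_nonneg_right h1 hl.le

lemma ax13 {η c : ℝ} (hη : 0 < η) :
    2 * (η / (16 * (1 + |c|))) + η / 4 + 4 * |c| * (η / (16 * (1 + |c|))) ≤ η / 2 := by
  have hc1 : 0 < 1 + |c| := by positivity
  have h0 : 0 ≤ |c| := abs_nonneg c
  set η1 := η / (16 * (1 + |c|)) with hη1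
  have e : η1 * (16 * (1 + |c|)) = η := by rw [hη1]; field_simp
  have hη10 : 0 < η1 := by positivity
  nlinarith

lemma ax14 {s H : ℝ} (hs : 1 ≤ s) (hH : 1 ≤ H) : 1 ≤ s * H := ax4 hs hH

lemma ax15 {S1 S2 c B N1 N2 T : ℝ} (hB : 0 ≤ B) (h1 : S1 ≤ 2 * B * N1) (h2 : S2 ≤ 2 * B * N2)
    (hN1 : N1 ≤ T) (hN2 : N2 ≤ T) (hT : 1 ≤ T) : S1 + S2 + |c| ≤ (4 * B + |c|) * T := by
  have s3 : |c| ≤ |c| * T := le_mul_of_one_le_right (abs_nonneg _) hT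
  have s4 : 2 * B * N1 ≤ 2 * B * T := by gcongr
  have s5 : 2 * B * N2 ≤ 2 * B * T := by gcongr
  linarith

theorem dm (h1 : S_TRI1) (h2 : S_TRI2) (h3 : S_RK) (h4 : S_SUM1) (h5 : S_SUM2) : S_DM := by
  intro C ε b₁ b₂ c η f₁ f₂ hC hε hε1 hb hη ha₁ ha₂
  obtain ⟨C0, hC0, h2⟩ := h2
  obtain ⟨CR, hCR, h3⟩ := h3
  obtain ⟨B₁, hB₁⟩ := ha₁.bdd
  obtain ⟨B₂, hB₂⟩ := ha₂.bdd
  set B := max B₁ B₂ with hBdef
  have hBa : ∀ ξ, |f₁ ξ| ≤ B := fun ξ => (hB₁ ξ).trans (le_max_left _ _)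
  have hBb : ∀ ξ, |f₂ ξ| ≤ B := fun ξ => (hB₂ ξ).trans (le_max_right _ _)
  have hB0 : 0 ≤ B := (abs_nonneg _).trans (hBa 0)
  set V₁ := ∫ ξ in (0 : ℝ)..1, ξ * (f₁ ξ) ^ 2 with hV₁
  set V₂ := ∫ ξ in (0 : ℝ)..1, ξ * (f₂ ξ) ^ 2 with hV₂
  set S₁ := ∫ ξ in (0 : ℝ)..1, ξ * f₁ ξ with hS₁
  set S₂ := ∫ ξ in (0 : ℝ)..1, ξ * f₂ ξ with hS₂
  set η1 := η / (16 * (1 + |c|)) with hη1
  have hc1 : 0 < 1 + |c| := by positivity
  have hη10 : 0 < η1 := by positivity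
  set η2 := η / 4 with hη2
  have hη20 : 0 < η2 := by positivity
  have hsmall : 2 * η1 + η2 + 4 * |c| * η1 ≤ η / 2 := ax13 hη
  obtain ⟨M1, hM1⟩ := h4 b₁ f₁ ha₁ η1 hη10
  obtain ⟨M2, hM2⟩ := h4 b₂ f₂ ha₂ η1 hη10
  obtain ⟨M3, hM3⟩ := h5 b₁ f₁ ha₁ (ε / 8) η1 (by positivity) hη10
  obtain ⟨M4, hM4⟩ := h5 b₂ f₂ ha₂ (ε / 8) η1 (by positivity) hη10
  set K := 4 * B + |c| with hK
  have hK0 : 0 ≤ K := by positivity
  -- eventual facts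
  have ev1 : ∀ᶠ T : ℝ in atTop, max (max (max M1 M2) (max M3 M4)) (max 1 (B * (C0 + 1) / η2 + B)) ≤
      (1 - ε) * Real.log T :=
    (Real.tendsto_log_atTop.const_mul_atTop (by linarith : 0 < 1 - ε)).eventually_ge_atTop _
  have ev2 : ∀ᶠ T : ℝ in atTop, max 4 ((2 * C * (V₁ + V₂ + c ^ 2 + 2 * η1 + η2) + 7 * η2) *
      (4 / η)) ≤ Real.log T := Real.tendsto_log_atTop.eventually_ge_atTop _
  have ev3 := ev_exp (K ^ 2 * 2) 5 (5 * ε / 4) (1 / 8) η2 (by positivity) (by norm_num) hη20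
  have ev4 := ev_exp (2 * (C + 2) * K ^ 2) 5 (ε / 8) (1 / 16) η2 (by positivity) (by norm_num) hη20
  have ev5 := ev_log (CR * C * K ^ 2) 4 (9 * ε ^ 2 / 128) η2 (by positivity) hη20
  have ev6 : ∀ᶠ T : ℝ in atTop, 2 * Real.log T ≤ T ^ (1 - ε / 16) := by
    have h := (isLittleO_log_rpow_atTop (r := 1 - ε / 16) (by linarith)).bound
      (show (0 : ℝ) < 1 / 2 by norm_num)
    filter_upwards [h, eventually_ge_atTop 1] with T hT hT1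
    rw [Real.norm_eq_abs, Real.norm_of_nonneg (by positivity),
      abs_of_nonneg (Real.log_nonneg hT1)] at hT
    linarith
  have ev := (((((ev1.and ev2).and ev3).and ev4).and ev5).and ev6).and (eventually_ge_atTop (1 : ℝ))
  obtain ⟨T1, hT1⟩ := eventually_atTop.1 ev
  refine ⟨T1, fun T τ hT Z m hE hτ1 hτ2 => ?_⟩
  obtain ⟨⟨⟨⟨⟨⟨f1, f2⟩, f3⟩, f4⟩, f5⟩, f6⟩, f7⟩ := hT1 T hT
  have hT0 : 0 < T := by linarith
  set ℓ := Real.log T with hℓ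
  have hℓ4 : 4 ≤ ℓ := (le_max_left _ _).trans f2
  have hℓ0 : 0 < ℓ := by linarith
  have hℓT : ℓ ≤ T := by
    have := Real.log_le_sub_one_of_pos hT0
    linarith
  set M := (1 - ε) * ℓ with hM
  have g1 : max (max M1 M2) (max M3 M4) ≤ M := (le_max_left _ _).trans f1
  have g2 : max 1 (B * (C0 + 1) / η2 + B) ≤ M := (le_max_right _ _).trans f1
  have hMM1 : M1 ≤ M := ((le_max_left _ _).trans (le_max_left _ _)).trans g1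
  have hMM2 : M2 ≤ M := ((le_max_right _ _).trans (le_max_left _ _)).trans g1
  have hMM3 : M3 ≤ M := ((le_max_left _ _).trans (le_max_right _ _)).trans g1
  have hMM4 : M4 ≤ M := ((le_max_right _ _).trans (le_max_right _ _)).trans g1
  have hM1' : 1 ≤ M := (le_max_left _ _).trans g2
  have hMB : B * (C0 + 1) / η2 + B ≤ M := (le_max_right _ _).trans g2
  have hM0 : 0 < M := by linarith
  have hb10 := ha₁.b0
  have hb20 := ha₂.b0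
  have hb11 := ha₁.b1
  have hb21 := ha₂.b1
  have hx1 : 0 ≤ (1 - ε) * b₁ + ε / 8 := ax1 hε hε1 hb10
  have hx2 : 0 ≤ (1 - ε) * b₂ + ε / 8 := ax1 hε hε1 hb20
  obtain ⟨n1, n2, n3⟩ := floor_facts f7 hx1
  obtain ⟨n4, n5, n6⟩ := floor_facts f7 hx2
  obtain ⟨n7, n8, n9⟩ := floor_facts f7 (show (0 : ℝ) ≤ 3 by norm_num)
  set N₁ := ⌊T ^ ((1 - ε) * b₁ + ε / 8)⌋₊ with hN₁
  set N₂ := ⌊T ^ ((1 - ε) * b₂ + ε / 8)⌋₊ with hN₂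
  set X := ⌊T ^ (3 : ℝ)⌋₊ with hX
  set H := T ^ (1 - ε / 8) with hH
  have hH1 : 1 ≤ H := Real.one_le_rpow f7 (by linarith)
  have hH0 : 0 < H := by linarith
  have hN1X : N₁ ≤ X := Nat.floor_le_floor (Real.rpow_le_rpow_of_exponent_le f7
    ((ax2 hε hε1 hb11).trans (by norm_num)))
  have hN2X : N₂ ≤ X := Nat.floor_le_floor (Real.rpow_le_rpow_of_exponent_le f7
    ((ax2 hε hε1 hb21).trans (by norm_num)))
  have hN1T : (N₁ : ℝ) ≤ T := by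
    refine n2.trans ?_
    conv_rhs => rw [← Real.rpow_one T]
    exact Real.rpow_le_rpow_of_exponent_le f7 (ax2 hε hε1 hb11)
  have hN2T : (N₂ : ℝ) ≤ T := by
    refine n5.trans ?_
    conv_rhs => rw [← Real.rpow_one T]
    exact Real.rpow_le_rpow_of_exponent_le f7 (ax2 hε hε1 hb21)
  have hXT : (X : ℝ) ≤ T ^ 3 := by
    refine n8.trans (le_of_eq ?_)
    norm_cast
  have hN1p : (1 : ℝ) ≤ N₁ := by exact_mod_cast n1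
  have hN2p : (1 : ℝ) ≤ N₂ := by exact_mod_cast n4
  have hNN : (N₁ : ℝ) * N₂ ≤ T ^ (1 - 3 * ε / 4) := by
    calc (N₁ : ℝ) * N₂ ≤ T ^ ((1 - ε) * b₁ + ε / 8) * T ^ ((1 - ε) * b₂ + ε / 8) := by gcongr
      _ = T ^ (((1 - ε) * b₁ + ε / 8) + ((1 - ε) * b₂ + ε / 8)) := (Real.rpow_add hT0 _ _).symm
      _ ≤ T ^ (1 - 3 * ε / 4) := Real.rpow_le_rpow_of_exponent_le f7 (ax3 hε1 hb)
  have hNN1 : (1 : ℝ) ≤ (N₁ : ℝ) * N₂ := ax4 hN1p hN2p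
  set G := 3 * ε / 4 * ℓ with hG
  have hRKc : Real.log ((N₁ : ℝ) * N₂) + G ≤ ℓ := by
    have := Real.log_le_log (by linarith) hNN
    rw [Real.log_rpow hT0, ← hℓ] at this
    rw [hG]
    linarith
  -- the exponential factor
  have hexp : Real.exp (-(H ^ 2) / (8 * ((N₁ : ℝ) * N₂) ^ 2)) ≤
      Real.exp (-(1 / 8 * T ^ (5 * ε / 4))) := by
    apply Real.exp_le_exp.2
    have e1 : H ^ 2 / (T ^ (1 - 3 * ε / 4)) ^ 2 = T ^ (5 * ε / 4) := by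
      rw [hH, ← Real.rpow_natCast, ← Real.rpow_natCast, ← Real.rpow_mul hT0.le,
        ← Real.rpow_mul hT0.le, ← Real.rpow_sub hT0]
      congr 1
      push_cast
      ring
    have e2 : H ^ 2 / (T ^ (1 - 3 * ε / 4)) ^ 2 ≤ H ^ 2 / ((N₁ : ℝ) * N₂) ^ 2 := by
      gcongr
    rw [e1] at e2
    have e3 : -(H ^ 2) / (8 * ((N₁ : ℝ) * N₂) ^ 2) = -(1 / 8 * (H ^ 2 / ((N₁ : ℝ) * N₂) ^ 2)) := by
      have : ((N₁ : ℝ) * N₂) ^ 2 ≠ 0 := by positivity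
      field_simp
    rw [e3]
    linarith
  set α := cf f₁ M with hα
  set β := cf f₂ M with hβ
  set Sz := sz α β N₁ N₂ c with hSz
  have hSz0 : 0 ≤ Sz := sz_nonneg _ _ _ _ _
  have hSzT : Sz ≤ K * T := by
    exact ax15 hB0 (sum_cf_abs hBa hM1' N₁) (sum_cf_abs hBb hM1' N₂) hN1T hN2T f7
  have hSz2 : Sz ^ 2 ≤ K ^ 2 * T ^ 2 := by
    rw [← mul_pow]
    exact pow_le_pow_left₀ hSz0 hSzT 2
  set Qs := ∑ n ∈ Finset.Icc 2 X, |qf ℓ n| with hQs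
  have hQs0 : 0 ≤ Qs := Finset.sum_nonneg fun _ _ => abs_nonneg _
  have hQsT : Qs ≤ 2 * T ^ 3 := by
    exact ax5 (sum_qf_abs hℓ0.le X) hXT
  have hT25 : T ^ 2 ≤ T ^ 5 := pow_le_pow_right₀ f7 (by norm_num)
  -- bound e1, e2
  set e := Real.exp (-(H ^ 2) / (8 * ((N₁ : ℝ) * N₂) ^ 2)) with he
  have he0 : 0 < e := Real.exp_pos _
  have he1 : Sz ^ 2 * e ≤ η2 := by
    calc Sz ^ 2 * e ≤ (K ^ 2 * T ^ 2) * Real.exp (-(1 / 8 * T ^ (5 * ε / 4))) := by gcongr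
      _ ≤ K ^ 2 * 2 * T ^ 5 * Real.exp (-(1 / 8 * T ^ (5 * ε / 4))) := by
          exact mul_le_mul_of_nonneg_right (ax6 hT25) (Real.exp_pos _).le
      _ ≤ η2 := f3
  have he2 : Sz ^ 2 * Qs * e ≤ η2 := by
    calc Sz ^ 2 * Qs * e ≤ (K ^ 2 * T ^ 2) * (2 * T ^ 3) *
        Real.exp (-(1 / 8 * T ^ (5 * ε / 4))) := by gcongr
      _ = K ^ 2 * 2 * T ^ 5 * Real.exp (-(1 / 8 * T ^ (5 * ε / 4))) := by ring
      _ ≤ η2 := f3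
  have hA : C0 * (B / M) ^ 2 ≤ η2 := ax7 hC0 hB0 hη20 hM0 hMB
  -- the tail term
  set dd := T ^ (1 - ε / 16) / 2 with hdd
  have hdd0 : 0 < dd := by positivity
  have hκ : Real.exp (-(dd ^ 2) / (4 * H ^ 2)) ≤ Real.exp (-(1 / 16 * T ^ (ε / 8))) := by
    apply Real.exp_le_exp.2
    have e1 : dd ^ 2 / (4 * H ^ 2) = 1 / 16 * T ^ (ε / 8) := by
      have e2 : (T ^ (1 - ε / 16)) ^ 2 / H ^ 2 = T ^ (ε / 8) := by
        rw [hH, ← Real.rpow_natCast, ← Real.rpow_natCast, ← Real.rpow_mul hT0.le,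
          ← Real.rpow_mul hT0.le, ← Real.rpow_sub hT0]
        congr 1
        push_cast
        ring
      rw [← e2, hdd]
      field_simp
      ring
    rw [neg_div, e1]
  set W := Real.sqrt (2 * Real.pi) * H with hW
  have hs1 := sqrt_two_pi_ge_one
  have hW1 : 1 ≤ W := ax4 hs1 hH1
  have hW0 : 0 < W := by linarith
  have he3 : (C * ℓ ^ 2 + Qs) * Sz ^ 2 * Real.exp (-(dd ^ 2) / (4 * H ^ 2)) *
        (Real.sqrt (2 * Real.pi) * (Real.sqrt 2 * H)) ≤ W * η2 := by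
    have k1 : Real.sqrt 2 ≤ 2 := by
      rw [Real.sqrt_le_left (by norm_num)]; norm_num
    have k2 : C * ℓ ^ 2 + Qs ≤ (C + 2) * T ^ 3 := by
      have : ℓ ^ 2 ≤ T ^ 3 := by
        calc ℓ ^ 2 ≤ T ^ 2 := pow_le_pow_left₀ hℓ0.le hℓT 2
          _ ≤ T ^ 3 := pow_le_pow_right₀ f7 (by norm_num)
      exact ax8 hC this hQsT
    have k3 : (C * ℓ ^ 2 + Qs) * Sz ^ 2 * Real.exp (-(dd ^ 2) / (4 * H ^ 2)) * Real.sqrt 2 ≤ η2 := by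
      calc (C * ℓ ^ 2 + Qs) * Sz ^ 2 * Real.exp (-(dd ^ 2) / (4 * H ^ 2)) * Real.sqrt 2 ≤
          ((C + 2) * T ^ 3) * (K ^ 2 * T ^ 2) * Real.exp (-(1 / 16 * T ^ (ε / 8))) * 2 := by gcongr
        _ = 2 * (C + 2) * K ^ 2 * T ^ 5 * Real.exp (-(1 / 16 * T ^ (ε / 8))) := by ring
        _ ≤ η2 := f4
    calc _ = W * ((C * ℓ ^ 2 + Qs) * Sz ^ 2 * Real.exp (-(dd ^ 2) / (4 * H ^ 2)) *
        Real.sqrt 2) := by rw [hW]; ring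
      _ ≤ W * η2 := mul_le_mul_of_nonneg_left k3 hW0.le
  have he4 : CR * (∑ g ∈ Z, (m g : ℝ)) * Sz ^ 2 * Real.exp (-(G ^ 2) / 8) ≤ W * η2 := by
    have k1 : ∑ g ∈ Z, (m g : ℝ) ≤ C * T ^ 2 := ax9 hC hT0 hE.tot hℓT
    have k0 : 0 ≤ ∑ g ∈ Z, (m g : ℝ) := Finset.sum_nonneg fun _ _ => Nat.cast_nonneg _
    have k2 : -(G ^ 2) / 8 = -(9 * ε ^ 2 / 128 * ℓ ^ 2) := by rw [hG]; ring
    have k3 : CR * (∑ g ∈ Z, (m g : ℝ)) * Sz ^ 2 * Real.exp (-(G ^ 2) / 8) ≤ η2 := by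
      rw [k2]
      calc CR * (∑ g ∈ Z, (m g : ℝ)) * Sz ^ 2 * Real.exp (-(9 * ε ^ 2 / 128 * ℓ ^ 2)) ≤
          CR * (C * T ^ 2) * (K ^ 2 * T ^ 2) * Real.exp (-(9 * ε ^ 2 / 128 * ℓ ^ 2)) := by gcongr
        _ = CR * C * K ^ 2 * T ^ 4 * Real.exp (-(9 * ε ^ 2 / 128 * ℓ ^ 2)) := by ring
        _ ≤ η2 := f5
    exact ax10 k3 hη20 hW1
  -- main inequalities
  have r1 := h3 Z m α β N₁ N₂ c τ H ℓ G hH1 (by rw [hG]; positivity) n1 n4 hRKc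
  have r2 := h1 α β N₁ N₂ c τ H hH0 n1 n4
  have r3 := h2 α β (qf ℓ) N₁ N₂ X c τ H (B / M) hH0 n1 n4 hN1X hN2X
    (fun n => cf_abs hBa hM0 n) (fun n => cf_abs hBb hM0 n) (fun n => qf_abs hℓ0.le n)
  have hℓd : ℓ ≤ dd := by rw [hdd]; linarith
  have r4 := dm_core hE hC (by linarith) α β N₁ N₂ c τ H dd hH0 hdd0.le
    (by rw [← hℓ, hdd]; rw [hdd] at hℓd; linarith)
    (by rw [← hℓ, hdd]; rw [hdd] at hℓd; linarith) X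
    (by rw [← hℓ]; linarith)
  rw [← hℓ] at r4
  have r5 := hM1 M hMM1 N₁
  have r6 := hM2 M hMM2 N₂
  have hρ : (1 + ε / 8) * M ≤ ℓ := ax11 hε hε1 hℓ0
  have r7 := hM3 M ℓ hMM3 hρ N₁ ((ax12 hε hℓ0).trans n3)
  have r8 := hM4 M ℓ hMM4 hρ N₂ ((ax12 hε hℓ0).trans n6)
  have r1' := (abs_le.1 r1).2
  have r2' := (abs_le.1 r2).2
  have r3' := (abs_le.1 r3).1
  set I1 := ∫ t, om τ H t * ‖DD α β N₁ N₂ c t‖ ^ 2 with hI1
  set I2 := ∫ t, om τ H t * ‖DD α β N₁ N₂ c t‖ ^ 2 * (DP (qf ℓ) X t).re with hI2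
  set Bq := (∑ n ∈ Finset.Icc 2 N₁, α n * qf ℓ n) + ∑ n ∈ Finset.Icc 2 N₂, β n * qf ℓ n with hBq
  have hfin := dm_final (W := W) (ℓ := ℓ) (C := C) (V := V₁ + V₂) (c := c) (ε := ε) (S := S₁ + S₂)
    (A1 := (∑ n ∈ Finset.Icc 2 N₁, α n ^ 2) + (∑ n ∈ Finset.Icc 2 N₂, β n ^ 2) + c ^ 2)
    (Bq := Bq) (M := M) (e1 := Sz ^ 2 * e) (e2 := C0 * (B / M) ^ 2 + Sz ^ 2 * Qs * e)
    (e3 := (C * ℓ ^ 2 + Qs) * Sz ^ 2 * Real.exp (-(dd ^ 2) / (4 * H ^ 2)) *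
        (Real.sqrt (2 * Real.pi) * (Real.sqrt 2 * H)))
    (e4 := CR * (∑ g ∈ Z, (m g : ℝ)) * Sz ^ 2 * Real.exp (-(G ^ 2) / 8)) (η := η) (η1 := η1)
    (η2 := η2) (I1 := I1) (I2 := I2) hW0 hℓ0 hC hη10.le hη20.le (by linarith) hM hε hε1
    (by
      have e : 1 / M * Bq - (S₁ + S₂) = (1 / M * (∑ n ∈ Finset.Icc 2 N₁, α n * qf ℓ n) - S₁) +
          (1 / M * (∑ n ∈ Finset.Icc 2 N₂, β n * qf ℓ n) - S₂) := by rw [hBq]; ring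
      rw [e]
      refine (abs_add_le _ _).trans ?_
      linarith)
    (by linarith) he1 (by linarith) (by linarith) he3 he4 hsmall (by
      have h9 : (2 * C * (V₁ + V₂ + c ^ 2 + 2 * η1 + η2) + 7 * η2) * (4 / η) ≤ ℓ :=
        (le_max_right _ _).trans f2
      rw [← mul_div_assoc, div_le_iff₀ hη] at h9
      linarith)
  have r9 : 1 / Real.pi * ∫ t, om τ H t * ‖DD α β N₁ N₂ c t‖ ^ 2 *
      (∫ u in (0 : ℝ)..ℓ, (FF Z m u t).re) ≤ 1 / Real.pi * ((ℓ / 2 + 2 * C) * I1 - I2 +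
        (C * ℓ ^ 2 + Qs) * Sz ^ 2 * Real.exp (-(dd ^ 2) / (4 * H ^ 2)) *
        (Real.sqrt (2 * Real.pi) * (Real.sqrt 2 * H))) := by
    apply mul_le_mul_of_nonneg_left _ (by positivity)
    exact r4
  calc _ ≤ 1 / Real.pi * (∫ t, om τ H t * ‖DD α β N₁ N₂ c t‖ ^ 2 *
      (∫ u in (0 : ℝ)..ℓ, (FF Z m u t).re)) +
      CR * (∑ g ∈ Z, (m g : ℝ)) * Sz ^ 2 * Real.exp (-(G ^ 2) / 8) := by linarith
    _ ≤ _ := (add_le_add r9 le_rfl).trans hfin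
    _ = _ := by ring

end TC
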