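import Pool.Agent.W198.TC.Basic

open Complex Filter Topology Set MeasureTheory

namespace TC

lemma gs_half {ℓ : ℝ} (hℓ : 0 ≤ ℓ) : ∫ u in (0 : ℝ)..ℓ, gs u ≤ 1 / 2 := by
  have h1 : ∫ u in (-ℓ)..(0 : ℝ), gs u = ∫ u in (0 : ℝ)..ℓ, gs u := by
    have := intervalIntegral.integral_comp_neg (a := 0) (b := ℓ) (fun x => gs x)
    simp only [gs_even, neg_zero] at this
    exact this.symm
  have h2 : (∫ u in (-ℓ)..(0 : ℝ), gs u) + ∫ u in (0 : ℝ)..ℓ, gs u = ∫ u in (-ℓ)..ℓ, gs u :=
    intervalIntegral.integral_add_adjacent_intervals (gs_cont.intervalIntegrable _ _)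
      (gs_cont.intervalIntegrable _ _)
  have h3 : ∫ u in (-ℓ)..ℓ, gs u ≤ 1 := by
    rw [intervalIntegral.integral_of_le (by linarith), ← gs_integral]
    exact setIntegral_le_integral gs_integrable (Eventually.of_forall fun x => gs_nonneg x)
  linarith

lemma gs_int_le_one {a b : ℝ} (hab : a ≤ b) (x : ℝ) : ∫ u in a..b, gs (u - x) ≤ 1 := by
  rw [intervalIntegral.integral_of_le hab, ← gs_integral, ← integral_sub_right_eq_self gs x]
  exact setIntegral_le_integral (gs_integrable.comp_sub_right x)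
    (Eventually.of_forall fun u => gs_nonneg _)

lemma gs_int_nonneg {a b : ℝ} (hab : a ≤ b) (x : ℝ) : 0 ≤ ∫ u in a..b, gs (u - x) :=
  intervalIntegral.integral_nonneg hab fun _ _ => gs_nonneg _

lemma qf_abs {ℓ : ℝ} (hℓ : 0 ≤ ℓ) (n : ℕ) : |qf ℓ n| ≤ lam n := by
  unfold qf
  rw [abs_of_nonneg (mul_nonneg (lam_nonneg n) (gs_int_nonneg hℓ _))]
  exact mul_le_of_le_one_right (lam_nonneg n) (gs_int_le_one hℓ _)

lemma gs_scale_le {M : ℝ} (hM : 0 < M) (x : ℝ) : ∫ ξ in (0 : ℝ)..1, gs (M * ξ - x) ≤ 1 / M := by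
  rw [intervalIntegral.integral_of_le zero_le_one, ← gs_scale_integral hM x]
  exact setIntegral_le_integral (gs_scale_integrable hM x)
    (Eventually.of_forall fun u => gs_nonneg _)

lemma cf_abs {h : ℝ → ℝ} {B M : ℝ} (hB : ∀ ξ, |h ξ| ≤ B) (hM : 0 < M)
    (n : ℕ) : |cf h M n| ≤ (B / M) * lam n := by
  unfold cf
  rw [abs_mul, abs_of_nonneg (lam_nonneg n), mul_comm]
  apply mul_le_mul_of_nonneg_right _ (lam_nonneg n)
  have hB0 : 0 ≤ B := (abs_nonneg _).trans (hB 0)
  have hint : Continuous fun ξ : ℝ => gs (M * ξ - Real.log n) := gs_cont.comp (by fun_prop)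
  calc |∫ ξ in (0 : ℝ)..1, h ξ * gs (M * ξ - Real.log n)|
      ≤ ∫ ξ in (0 : ℝ)..1, B * gs (M * ξ - Real.log n) := by
        rw [← Real.norm_eq_abs]
        apply intervalIntegral.norm_integral_le_of_norm_le zero_le_one
        · refine Eventually.of_forall fun ξ _ => ?_
          rw [Real.norm_eq_abs, abs_mul, abs_of_nonneg (gs_nonneg _)]
          exact mul_le_mul_of_nonneg_right (hB ξ) (gs_nonneg _)
        · exact (hint.const_mul B).intervalIntegrable _ _
    _ = B * ∫ ξ in (0 : ℝ)..1, gs (M * ξ - Real.log n) := intervalIntegral.integral_const_mul _ _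
    _ ≤ B * (1 / M) := mul_le_mul_of_nonneg_left (gs_scale_le hM _) hB0
    _ = B / M := by ring

lemma om_mul_integrable {τ H K : ℝ} (hH : 0 < H) {f : ℝ → ℝ} (hf : Continuous f)
    (hK : ∀ t, |f t| ≤ K) : Integrable (fun t => om τ H t * f t) := by
  have h1 := (om_integrable τ H hH).mul_const K
  refine h1.mono' ((om_cont τ H).mul hf).aestronglyMeasurable (Eventually.of_forall fun t => ?_)
  rw [Real.norm_eq_abs, abs_mul, abs_of_pos (om_pos τ H t)]
  exact mul_le_mul_of_nonneg_left (hK t) (om_pos τ H t).le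

/-- the smoothed density -/
noncomputable def RR (Z : Finset ℝ) (m : ℝ → ℕ) (ℓ t : ℝ) : ℝ := ∫ u in (0 : ℝ)..ℓ, (FF Z m u t).re

lemma RR_cont (Z : Finset ℝ) (m : ℝ → ℕ) (ℓ : ℝ) : Continuous (RR Z m ℓ) := by
  unfold RR
  apply intervalIntegral.continuous_parametric_intervalIntegral_of_continuous'
  have h := (FF_cont2 Z m).comp (continuous_swap : Continuous (Prod.swap : ℝ × ℝ → ℝ × ℝ))
  exact Complex.continuous_re.comp h

lemma RR_abs {C T : ℝ} {Z : Finset ℝ} {m : ℝ → ℕ} (hE : EFD C T Z m) {ℓ : ℝ} (hℓ : 0 ≤ ℓ) (t : ℝ) :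
    |RR Z m ℓ t| ≤ ℓ * (C * Real.log T) := by
  unfold RR
  rw [← Real.norm_eq_abs]
  have h := intervalIntegral.norm_integral_le_of_norm_le_const (a := 0) (b := ℓ)
    (f := fun u => (FF Z m u t).re) (C := C * Real.log T) (fun u _ => by
      refine (Complex.abs_re_le_norm _).trans ((FF_norm_le Z m u t).trans (hE.loc t)))
  rw [sub_zero, abs_of_nonneg hℓ, mul_comm] at h
  exact h

/-- upper bound of the smoothed density by a Dirichlet polynomial -/
lemma RR_le {C T : ℝ} {Z : Finset ℝ} {m : ℝ → ℕ} (hE : EFD C T Z m) (hC : 0 < C)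
    (h4 : 4 ≤ Real.log T) {t : ℝ} (ht1 : T + Real.log T ≤ t)
    (ht2 : t ≤ 2 * T - Real.log T) {X : ℕ} (hX : 3 * Real.log T ≤ Real.log (X + 1)) :
    RR Z m (Real.log T) t ≤ Real.log T / 2 + 2 * C - (DP (qf (Real.log T)) X t).re := by
  set ℓ := Real.log T with hℓ
  have hℓ0 : 0 ≤ ℓ := by linarith
  -- pointwise bound
  have hpt : ∀ u ∈ Set.Icc (0 : ℝ) ℓ, (FF Z m u t).re ≤ (ℓ * gs u -
      ∑ n ∈ Finset.Icc 2 X, (lam n * gs (u - Real.log n)) * Real.cos (t * Real.log n)) +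
      C * (Real.exp (-u) + Real.exp (2 * ℓ - ℓ ^ 2)) := by
    intro u hu
    have h1 := hE.ef u t (2 * ℓ) X hu.1 hu.2 ht1 ht2 (by linarith) (by linarith [hu.2])
    have h2 := (Complex.abs_re_le_norm _).trans h1
    have h3 := (abs_le.1 h2).2
    have e1 : (FF Z m u t - ((ℓ * gs u : ℝ) - ∑ n ∈ Finset.Icc 2 X,
        ((lam n * gs (u - Real.log n) : ℝ) : ℂ) * cexp (((-(t * Real.log n) : ℝ) : ℂ) * I))).re =
        (FF Z m u t).re - (ℓ * gs u - ∑ n ∈ Finset.Icc 2 X, (lam n * gs (u - Real.log n)) *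
          Real.cos (t * Real.log n)) := by
      rw [sub_re, sub_re, ofReal_re, re_sum]
      congr 2
      apply Finset.sum_congr rfl
      intro n _
      rw [Complex.re_ofReal_mul, Complex.exp_ofReal_mul_I_re, Real.cos_neg]
    rw [e1] at h3
    have e2 : Real.exp (2 * u - (2 * ℓ) ^ 2 / 4) ≤ Real.exp (2 * ℓ - ℓ ^ 2) := by
      apply Real.exp_le_exp.2
      nlinarith [hu.2]
    have e3 : C * (Real.exp (-u) + Real.exp (2 * u - (2 * ℓ) ^ 2 / 4)) ≤
        C * (Real.exp (-u) + Real.exp (2 * ℓ - ℓ ^ 2)) := by gcongr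
    linarith
  have hc1 : Continuous fun u : ℝ => (FF Z m u t).re :=
    Complex.continuous_re.comp (FF_cont_u Z m t)
  have hg : ∀ n : ℕ, Continuous fun u : ℝ => (lam n * gs (u - Real.log n)) *
      Real.cos (t * Real.log n) := fun n =>
    (continuous_const.mul (gs_cont.comp (by fun_prop))).mul continuous_const
  have hc2 : Continuous fun u : ℝ => ℓ * gs u := continuous_const.mul gs_cont
  have hc3 : Continuous fun u : ℝ => ∑ n ∈ Finset.Icc 2 X, (lam n * gs (u - Real.log n)) *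
      Real.cos (t * Real.log n) := continuous_finsetSum _ fun n _ => hg n
  have hc4 : Continuous fun u : ℝ => C * (Real.exp (-u) + Real.exp (2 * ℓ - ℓ ^ 2)) := by fun_prop
  have hA : Continuous fun u : ℝ => ℓ * gs u - ∑ n ∈ Finset.Icc 2 X,
      (lam n * gs (u - Real.log n)) * Real.cos (t * Real.log n) := hc2.sub hc3
  have hB : Continuous fun u : ℝ => (ℓ * gs u - ∑ n ∈ Finset.Icc 2 X,
      (lam n * gs (u - Real.log n)) * Real.cos (t * Real.log n)) +
      C * (Real.exp (-u) + Real.exp (2 * ℓ - ℓ ^ 2)) := hA.add hc4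
  have h5 := intervalIntegral.integral_mono_on (μ := volume) hℓ0 (hc1.intervalIntegrable 0 ℓ)
    (hB.intervalIntegrable 0 ℓ) hpt
  unfold RR
  refine h5.trans ?_
  rw [intervalIntegral.integral_add (hA.intervalIntegrable _ _)
    (hc4.intervalIntegrable _ _), intervalIntegral.integral_sub (hc2.intervalIntegrable _ _)
    (hc3.intervalIntegrable _ _), intervalIntegral.integral_const_mul,
    intervalIntegral.integral_finsetSum (fun n _ => (hg n).intervalIntegrable _ _)]
  have e6 : ∑ n ∈ Finset.Icc 2 X, ∫ u in (0 : ℝ)..ℓ, (lam n * gs (u - Real.log n)) *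
      Real.cos (t * Real.log n) = (DP (qf ℓ) X t).re := by
    unfold DP qf
    rw [re_sum]
    apply Finset.sum_congr rfl
    intro n _
    rw [Complex.re_ofReal_mul, Complex.exp_ofReal_mul_I_re, Real.cos_neg,
      intervalIntegral.integral_mul_const, intervalIntegral.integral_const_mul]
  rw [e6]
  have e7 : ∫ u in (0 : ℝ)..ℓ, C * (Real.exp (-u) + Real.exp (2 * ℓ - ℓ ^ 2)) ≤ 2 * C := by
    rw [intervalIntegral.integral_const_mul, intervalIntegral.integral_add
      ((by fun_prop : Continuous fun u : ℝ => Real.exp (-u)).intervalIntegrable _ _)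
      (continuous_const.intervalIntegrable _ _), intervalIntegral.integral_const, smul_eq_mul]
    have e8 : ∫ u in (0 : ℝ)..ℓ, Real.exp (-u) = 1 - Real.exp (-ℓ) := by
      have := intervalIntegral.integral_comp_neg (a := 0) (b := ℓ) (fun x => Real.exp x)
      simp only [neg_zero] at this
      rw [this, integral_exp, Real.exp_zero]
    have e9 : (ℓ - 0) * Real.exp (2 * ℓ - ℓ ^ 2) ≤ 1 := by
      have h1 : ℓ ≤ Real.exp (ℓ ^ 2 - 2 * ℓ) := by
        have := Real.add_one_le_exp (ℓ ^ 2 - 2 * ℓ)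
        nlinarith
      have h2 : Real.exp (2 * ℓ - ℓ ^ 2) = (Real.exp (ℓ ^ 2 - 2 * ℓ))⁻¹ := by
        rw [← Real.exp_neg]; congr 1; ring
      rw [h2, sub_zero, ← div_eq_mul_inv, div_le_one (Real.exp_pos _)]
      exact h1
    have e10 := Real.exp_pos (-ℓ)
    nlinarith
  have e11 := gs_half hℓ0
  have e12 : ℓ * ∫ u in (0 : ℝ)..ℓ, gs u ≤ ℓ / 2 := by nlinarith
  linarith

end TC
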