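import Mathlib

open Complex Filter Topology Set MeasureTheory

namespace TC

/-- the standard normal density -/
noncomputable def gs (x : ℝ) : ℝ := Real.exp (-x ^ 2 / 2) / Real.sqrt (2 * Real.pi)

/-- a wide Gaussian weight (not normalised), centre `τ`, width `H` -/
noncomputable def om (τ H t : ℝ) : ℝ := Real.exp (-(t - τ) ^ 2 / (2 * H ^ 2))

/-- `Λ(n)/√n` -/
noncomputable def lam (n : ℕ) : ℝ := ArithmeticFunction.vonMangoldt n / Real.sqrt n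

/-- the local sum over the points of `Z` (with multiplicities `m`) near `t` -/
noncomputable def FF (Z : Finset ℝ) (m : ℝ → ℕ) (u t : ℝ) : ℂ :=
  ∑ g ∈ Z, (((m g : ℝ) * Real.exp (-(g - t) ^ 2 / 2) : ℝ) : ℂ) *
    cexp (((u * (g - t) : ℝ) : ℂ) * I)

/-- a Dirichlet polynomial `∑ α(n) n^{-it}`, `2 ≤ n ≤ N` -/
noncomputable def DP (α : ℕ → ℝ) (N : ℕ) (t : ℝ) : ℂ :=
  ∑ n ∈ Finset.Icc 2 N, (α n : ℂ) * cexp (((-(t * Real.log n) : ℝ) : ℂ) * I)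

/-- two-sided Dirichlet polynomial plus a constant -/
noncomputable def DD (α β : ℕ → ℝ) (N₁ N₂ : ℕ) (c t : ℝ) : ℂ :=
  DP α N₁ t + (starRingEnd ℂ) (DP β N₂ t) + (c : ℂ)

/-- the ℓ¹-norm of the coefficients -/
noncomputable def sz (α β : ℕ → ℝ) (N₁ N₂ : ℕ) (c : ℝ) : ℝ :=
  (∑ n ∈ Finset.Icc 2 N₁, |α n|) + (∑ n ∈ Finset.Icc 2 N₂, |β n|) + |c|

/-- coefficients attached to a window function `h` on `[0,1]` -/
noncomputable def cf (h : ℝ → ℝ) (M : ℝ) (n : ℕ) : ℝ :=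
  lam n * ∫ ξ in (0 : ℝ)..1, h ξ * gs (M * ξ - Real.log n)

/-- coefficients of the smoothed zero density -/
noncomputable def qf (ℓ : ℝ) (n : ℕ) : ℝ := lam n * ∫ u in (0 : ℝ)..ℓ, gs (u - Real.log n)

/-- smoothed `∑ Λ(n)²/n` near `log n = y` -/
noncomputable def KK (y : ℝ) : ℝ := ∑' n : ℕ, (lam n) ^ 2 * gs (y - Real.log n)

/-- the window sum -/
noncomputable def XX (Z : Finset ℝ) (m : ℝ → ℕ) (h : ℝ → ℝ) (M t : ℝ) : ℂ :=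
  ∫ ξ in (0 : ℝ)..1, (h ξ : ℂ) * FF Z m (M * ξ) t

/-- admissible window function supported on `[0,b]` -/
structure Adm (b : ℝ) (h : ℝ → ℝ) : Prop where
  b0 : 0 ≤ b
  b1 : b ≤ 1
  meas : Measurable h
  bdd : ∃ B : ℝ, ∀ ξ, |h ξ| ≤ B
  supp : ∀ ξ, b < ξ → h ξ = 0
  zero : Tendsto h (𝓝[>] 0) (𝓝 (h 0))
  w1 : Tendsto (fun M : ℝ => (1 / M ^ 2) * ∫ y in (0 : ℝ)..M, h (y / M) * KK y) atTop
    (𝓝 (∫ ξ in (0 : ℝ)..1, ξ * h ξ))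
  w2 : Tendsto (fun M : ℝ => (1 / M ^ 2) * ∫ y in (0 : ℝ)..M, (h (y / M)) ^ 2 * KK y) atTop
    (𝓝 (∫ ξ in (0 : ℝ)..1, ξ * (h ξ) ^ 2))

/-- the data of the explicit formula at height `T`: `Z` = ordinates in `(≈T, ≈2T]`,
`m` = multiplicities -/
structure EFD (C T : ℝ) (Z : Finset ℝ) (m : ℝ → ℕ) : Prop where
  mem : ∀ g ∈ Z, T ≤ g ∧ g ≤ 2 * T
  one : ∀ g ∈ Z, 1 ≤ m g
  tot : ∑ g ∈ Z, (m g : ℝ) ≤ C * T * Real.log T
  loc : ∀ t : ℝ, ∑ g ∈ Z, (m g : ℝ) * Real.exp (-(g - t) ^ 2 / 2) ≤ C * Real.log T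
  ef : ∀ (u t D : ℝ) (X : ℕ), 0 ≤ u → u ≤ Real.log T → T + Real.log T ≤ t →
    t ≤ 2 * T - Real.log T → 0 ≤ D → u + D ≤ Real.log (X + 1) →
    ‖FF Z m u t - ((Real.log T * gs u : ℝ) -
      ∑ n ∈ Finset.Icc 2 X, ((lam n * gs (u - Real.log n) : ℝ) : ℂ) *
        cexp (((-(t * Real.log n) : ℝ) : ℂ) * I))‖ ≤
      C * (Real.exp (-u) + Real.exp (2 * u - D ^ 2 / 4))

end TC
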