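import Pool.Agent.W198.TC.Stms

open Complex Filter Topology Set MeasureTheory

namespace TC

lemma om_eq (τ H x t : ℝ) (hH : 0 < H) : (om τ H t : ℂ) * cexp (((t * x : ℝ) : ℂ) * I) =
    cexp ((-(1 / (2 * H ^ 2) : ℝ) : ℂ) * (t : ℂ) ^ 2 + (((τ / H ^ 2 : ℝ) : ℂ) + x * I) * t +
      ((-(τ ^ 2 / (2 * H ^ 2)) : ℝ) : ℂ)) := by
  unfold om
  rw [ofReal_exp, ← Complex.exp_add]
  congr 1
  have hH' : (H : ℂ) ≠ 0 := by exact_mod_cast hH.ne'
  push_cast
  field_simp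
  ring

theorem gau : S_GAU := by
  intro τ H x hH
  have hb : (-(1 / (2 * H ^ 2) : ℝ) : ℂ).re < 0 := by
    rw [← ofReal_neg, ofReal_re]
    have : 0 < 1 / (2 * H ^ 2) := by positivity
    linarith
  simp_rw [om_eq τ H x _ hH]
  constructor
  · exact integrable_cexp_quadratic' hb _ _
  · rw [integral_cexp_quadratic hb]
    have hH' : (H : ℂ) ≠ 0 := by exact_mod_cast hH.ne'
    have e1 : (Real.pi : ℂ) / -(-(1 / (2 * H ^ 2) : ℝ) : ℂ) = ((2 * Real.pi * H ^ 2 : ℝ) : ℂ) := by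
      push_cast
      field_simp
    have e2 : (((2 * Real.pi * H ^ 2 : ℝ) : ℂ)) ^ (1 / 2 : ℂ) =
        ((Real.sqrt (2 * Real.pi) * H : ℝ) : ℂ) := by
      rw [show (1 / 2 : ℂ) = ((1 / 2 : ℝ) : ℂ) by push_cast; ring,
        ← Complex.ofReal_cpow (by positivity), ← Real.sqrt_eq_rpow,
        Real.sqrt_mul (by positivity), Real.sqrt_sq hH.le]
    rw [e1, e2]
    rw [show ((Real.sqrt (2 * Real.pi) * H * Real.exp (-(H ^ 2 * x ^ 2) / 2) : ℝ) : ℂ) =
      ((Real.sqrt (2 * Real.pi) * H : ℝ) : ℂ) * cexp ((-(H ^ 2 * x ^ 2) / 2 : ℝ) : ℂ) by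
        push_cast; ring, mul_assoc, ← Complex.exp_add]
    congr 2
    push_cast
    field_simp
    ring_nf
    simp only [I_sq]
    ring

lemma om_pos (τ H t : ℝ) : 0 < om τ H t := Real.exp_pos _

lemma om_le_one (τ H t : ℝ) : om τ H t ≤ 1 := by
  unfold om
  rw [Real.exp_le_one_iff]
  have : 0 ≤ (t - τ) ^ 2 / (2 * H ^ 2) := by positivity
  rw [neg_div]
  linarith

lemma om_cont (τ H : ℝ) : Continuous (om τ H) := by
  unfold om
  fun_prop

lemma om_integrable (τ H : ℝ) (hH : 0 < H) : Integrable (om τ H) := by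
  have h := (gau τ H 0 hH).1
  simp only [mul_zero, ofReal_zero, zero_mul, Complex.exp_zero, mul_one] at h
  have h2 := h.re
  simpa using h2

lemma om_integral (τ H : ℝ) (hH : 0 < H) : ∫ t, om τ H t = Real.sqrt (2 * Real.pi) * H := by
  have h := (gau τ H 0 hH).2
  simp only [mul_zero, ofReal_zero, zero_mul, Complex.exp_zero, mul_one, ne_eq,
    OfNat.ofNat_ne_zero, not_false_eq_true, zero_pow, neg_zero, zero_div, Real.exp_zero] at h
  have h3 : ((∫ t, om τ H t : ℝ) : ℂ) = ((Real.sqrt (2 * Real.pi) * H : ℝ) : ℂ) := by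
    rw [← h, integral_complex_ofReal]
  exact_mod_cast h3

end TC
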