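import Pool.Agent.W198.TC.CertNum
import Pool.Agent.W376.TC.Glob
import Pool.Agent.W930.TCEFR

open Complex Filter Topology Set MeasureTheory

namespace TC

/-- the variance bound -/
noncomputable def vv : ℝ := 12080 / 100000
/-- the mean -/
noncomputable def EE : ℝ := 1037 / 1000
/-- lower bound of the kernel at distance `x` -/
noncomputable def Qx (x : ℝ) : ℝ := (53 / 60 - 79 / 2400 * x ^ 2) ^ 2

lemma vv_pos : 0 < vv := by unfold vv; norm_num
lemma EE_pos : 0 < EE := by unfold EE; norm_num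

lemma ct_Q {x : ℝ} (hx : 0 ≤ 53 / 60 - 79 / 2400 * x ^ 2) (y : ℝ) (hy : |y| ≤ x) :
    Qx x ≤ ∫ ξ in (0 : ℝ)..1, ct.p ξ * Real.cos (y * ξ) := by
  have h1 : ct.p = Pool.Agent.W32.TC.pp (7 / 5) := rfl
  rw [h1, Pool.Agent.W32.TC.pos_sq]
  unfold Qx
  have h2 := Pool.Agent.W32.TC.u_lower (7 / 5) y (by norm_num) (by norm_num)
  have h3 : y ^ 2 ≤ x ^ 2 := by
    rw [← sq_abs y]
    exact pow_le_pow_left₀ (abs_nonneg _) hy 2
  apply pow_le_pow_left₀ hx
  refine le_trans ?_ h2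
  nlinarith

/-- the general bound -/
theorem main_phi (hRH : RiemannHypothesis) (Φ : ℕ → ℝ) (x s κ A : ℝ) (hx0 : 0 ≤ x)
    (hx : 0 < 53 / 60 - 79 / 2400 * x ^ 2) (hs : s ≤ EE) (hκ : 0 < κ) (hΦ0 : ∀ k, 0 ≤ Φ k)
    (hΦm : Monotone Φ) (hΦA : ∀ k : ℕ, Φ k ≤ A * k ^ 2)
    (hΦ : ∀ k : ℕ, 1 ≤ k → Φ k * κ ≤ (max 0 (k * Qx x - (EE - s))) ^ 2) (δ : ℝ) (hδ : 0 < δ) :
    ∃ T1 : ℝ, ∀ T : ℝ, T1 ≤ T → ∀ r : ℝ, 0 ≤ r → r * Real.log T ≤ x →
    ∑ g ∈ ordT T, (mu g : ℝ) * Φ (kk (ordT T) mu r g) ≤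
      T * Real.log T / (2 * Real.pi) * ((vv + s ^ 2) / κ + δ) := by
  have hE : ct.E = EE := ct_E
  have hV : ct.VV ≤ vv := ct_VV
  have hQ0 : 0 < Qx x := by unfold Qx; positivity
  have hb := blockT 11 ct x (Qx x) s κ Φ hx0 hQ0 (ct_Q hx.le) (by rw [hE]; linarith) hκ
    (by rw [hE]; exact hΦ)
  have hK0 : 0 ≤ (ct.VV + s ^ 2) / κ :=
    div_nonneg (add_nonneg (VV_nonneg ct) (sq_nonneg _)) hκ.le
  obtain ⟨T1, hT1⟩ := glob Pool.Agent.W930.TCEFR.efr hRH Φ x _ A hx0 hK0 hΦ0 hΦm hΦA hb δ hδ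
  refine ⟨max T1 1, fun T hT r hr0 hr => ?_⟩
  refine (hT1 T ((le_max_left _ _).trans hT) r hr0 hr).trans ?_
  have hT1' : 1 ≤ T := (le_max_right _ _).trans hT
  have hl : 0 ≤ Real.log T := Real.log_nonneg hT1'
  have hpi := Real.pi_pos
  apply mul_le_mul_of_nonneg_left _ (by positivity)
  apply add_le_add_left
  exact div_le_div_of_nonneg_right (by linarith) hκ.le

/-- optimal `s` for a given gap `D` -/
lemma opt_s {D : ℝ} (hD : 0 < D) : (vv + (vv / D) ^ 2) / (D + vv / D) ^ 2 = vv / (vv + D ^ 2) := by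
  have := vv_pos
  field_simp
  ring

/-- **Close pairs.** -/
theorem close_pairs (hRH : RiemannHypothesis) (x : ℝ) (hx0 : 0 ≤ x)
    (hx : 0 < 53 / 60 - 79 / 2400 * x ^ 2) (hD : vv / EE ≤ 2 * Qx x - EE) (δ : ℝ) (hδ : 0 < δ) :
    ∃ T1 : ℝ, ∀ T : ℝ, T1 ≤ T → ∀ r : ℝ, 0 ≤ r → r * Real.log T ≤ x →
    ∑ g ∈ ordT T, (mu g : ℝ) * (((kk (ordT T) mu r g - 1 : ℕ)) : ℝ) ≤
      T * Real.log T / (2 * Real.pi) * (vv / (vv + (2 * Qx x - EE) ^ 2) + δ) := by
  have hv := vv_pos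
  have hE := EE_pos
  have hD0 : 0 < 2 * Qx x - EE := lt_of_lt_of_le (by positivity) hD
  set D := 2 * Qx x - EE with hDdef
  set s := vv / D with hs
  have hs0 : 0 < s := by positivity
  have hsE : s ≤ EE := by
    rw [hs, div_le_iff₀ hD0]
    rw [div_le_iff₀ hE] at hD
    linarith
  have hQ0 : 0 ≤ Qx x := by unfold Qx; positivity
  obtain ⟨T1, hT1⟩ := main_phi hRH (fun k => ((k - 1 : ℕ) : ℝ)) x s ((D + s) ^ 2) 1 hx0 hx hsE
    (by positivity) (fun k => Nat.cast_nonneg _) (fun a b hab => by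
      show ((a - 1 : ℕ) : ℝ) ≤ ((b - 1 : ℕ) : ℝ)
      exact_mod_cast Nat.sub_le_sub_right hab 1) (fun k => by
      rcases Nat.eq_zero_or_pos k with rfl | hk
      · simp
      · show ((k - 1 : ℕ) : ℝ) ≤ 1 * k ^ 2
        have h1 : (k - 1 : ℕ) ≤ k ^ 2 := (Nat.sub_le _ _).trans (Nat.le_self_pow (by norm_num) k)
        rw [one_mul]
        exact_mod_cast h1) (fun k hk => by
      rcases Nat.eq_or_lt_of_le hk with h1 | h1
      · subst h1
        simp only [Nat.sub_self, Nat.cast_zero, zero_mul]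
        positivity
      · have hk2 : (2 : ℝ) ≤ k := by exact_mod_cast h1
        have e : ((k - 1 : ℕ) : ℝ) = (k : ℝ) - 1 := by
          rw [Nat.cast_sub hk, Nat.cast_one]
        have hDs : D + s = 2 * Qx x - (EE - s) := by rw [hDdef]; ring
        have hb0 : 0 ≤ EE - s := by linarith
        have hpos : 0 ≤ k * Qx x - (EE - s) := by nlinarith
        rw [max_eq_right hpos, hDs]
        simp only [e]
        set b := EE - s with hb
        have hb2 : 0 ≤ 2 * Qx x - b := by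
          have : 0 < D + s := by positivity
          linarith
        have key : (k * Qx x - b) ^ 2 - ((k : ℝ) - 1) * (2 * Qx x - b) ^ 2 =
            ((k : ℝ) - 2) * (Qx x ^ 2 * ((k : ℝ) - 2) + b * (2 * Qx x - b)) := by ring
        have h5 : 0 ≤ ((k : ℝ) - 2) * (Qx x ^ 2 * ((k : ℝ) - 2) + b * (2 * Qx x - b)) := by
          apply mul_nonneg (by linarith)
          have : 0 ≤ (k : ℝ) - 2 := by linarith
          positivity
        linarith) δ hδ
  refine ⟨T1, fun T hT r hr0 hr => ?_⟩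
  refine (hT1 T hT r hr0 hr).trans (le_of_eq ?_)
  rw [hs, opt_s hD0]

/-- **Clusters**: zeros having at least `j - 1` other zeros (with multiplicity) nearby. -/
theorem clusters (hRH : RiemannHypothesis) (j : ℕ) (x : ℝ) (hx0 : 0 ≤ x)
    (hx : 0 < 53 / 60 - 79 / 2400 * x ^ 2) (hD : vv / EE ≤ j * Qx x - EE) (δ : ℝ) (hδ : 0 < δ) :
    ∃ T1 : ℝ, ∀ T : ℝ, T1 ≤ T → ∀ r : ℝ, 0 ≤ r → r * Real.log T ≤ x →
    ∑ g ∈ (ordT T).filter (fun g => j ≤ kk (ordT T) mu r g), (mu g : ℝ) ≤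
      T * Real.log T / (2 * Real.pi) * (vv / (vv + (j * Qx x - EE) ^ 2) + δ) := by
  have hv := vv_pos
  have hE := EE_pos
  have hD0 : 0 < j * Qx x - EE := lt_of_lt_of_le (by positivity) hD
  set D := j * Qx x - EE with hDdef
  set s := vv / D with hs
  have hs0 : 0 < s := by positivity
  have hsE : s ≤ EE := by
    rw [hs, div_le_iff₀ hD0]
    rw [div_le_iff₀ hE] at hD
    linarith
  have hQ0 : 0 ≤ Qx x := by unfold Qx; positivity
  obtain ⟨T1, hT1⟩ := main_phi hRH (fun k => if j ≤ k then 1 else 0) x s ((D + s) ^ 2) 1 hx0 hx hsE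
    (by positivity) (fun k => by
      show (0 : ℝ) ≤ if j ≤ k then 1 else 0
      split_ifs <;> norm_num) (fun a b hab => by
      show (if j ≤ a then (1 : ℝ) else 0) ≤ if j ≤ b then 1 else 0
      split_ifs with h1 h2
      · exact le_rfl
      · omega
      · exact zero_le_one
      · exact le_rfl) (fun k => by
      show (if j ≤ k then (1 : ℝ) else 0) ≤ 1 * (k : ℝ) ^ 2
      have hj1 : 1 ≤ j := by
        by_contra hcon
        have : j = 0 := by omega
        rw [hDdef, this] at hD0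
        simp at hD0
        linarith
      split_ifs with h1
      · have : (1 : ℝ) ≤ k := by exact_mod_cast hj1.trans h1
        nlinarith
      · positivity) (fun k _ => by
      have hDs : D + s = j * Qx x - (EE - s) := by rw [hDdef]; ring
      show (if j ≤ k then (1 : ℝ) else 0) * (D + s) ^ 2 ≤ _
      split_ifs with h1
      · rw [one_mul]
        have hk : (j : ℝ) ≤ k := by exact_mod_cast h1
        have h2 : D + s ≤ k * Qx x - (EE - s) := by
          rw [hDs]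
          have := mul_le_mul_of_nonneg_right hk hQ0
          linarith
        have h3 : 0 ≤ D + s := by positivity
        exact pow_le_pow_left₀ h3 (h2.trans (le_max_right _ _)) 2
      · rw [zero_mul]; positivity) δ hδ
  refine ⟨T1, fun T hT r hr0 hr => ?_⟩
  have e : ∑ g ∈ (ordT T).filter (fun g => j ≤ kk (ordT T) mu r g), (mu g : ℝ) =
      ∑ g ∈ ordT T, (mu g : ℝ) * (if j ≤ kk (ordT T) mu r g then 1 else 0) := by
    rw [Finset.sum_filter]
    apply Finset.sum_congr rfl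
    intro g _
    split_ifs <;> simp
  rw [e]
  refine (hT1 T hT r hr0 hr).trans (le_of_eq ?_)
  rw [hs, opt_s hD0]

/-- **Triples.** -/
theorem close_triples (hRH : RiemannHypothesis) (x : ℝ) (hx0 : 0 ≤ x)
    (hx : 0 < 53 / 60 - 79 / 2400 * x ^ 2) (hQ : 7 / 10 ≤ Qx x) (δ : ℝ) (hδ : 0 < δ) :
    ∃ T1 : ℝ, ∀ T : ℝ, T1 ≤ T → ∀ r : ℝ, 0 ≤ r → r * Real.log T ≤ x →
    ∑ g ∈ ordT T, (mu g : ℝ) * (((kk (ordT T) mu r g - 1) * (kk (ordT T) mu r g - 2) : ℕ) : ℝ) ≤
      T * Real.log T / (2 * Real.pi) * (vv / Qx x ^ 2 + δ) := by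
  have hv := vv_pos
  have hE := EE_pos
  have hQ0 : 0 < Qx x := by linarith
  have hQ1 : Qx x ≤ 79 / 100 := by
    unfold Qx
    have h1 : 53 / 60 - 79 / 2400 * x ^ 2 ≤ 53 / 60 := by nlinarith [sq_nonneg x]
    nlinarith
  obtain ⟨T1, hT1⟩ := main_phi hRH (fun k => (((k - 1) * (k - 2) : ℕ) : ℝ)) x 0 (Qx x ^ 2) 1 hx0 hx
    hE.le (by positivity) (fun k => Nat.cast_nonneg _) (fun a b hab => by
      show (((a - 1) * (a - 2) : ℕ) : ℝ) ≤ (((b - 1) * (b - 2) : ℕ) : ℝ)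
      exact_mod_cast Nat.mul_le_mul (Nat.sub_le_sub_right hab 1) (Nat.sub_le_sub_right hab 2))
    (fun k => by
      show (((k - 1) * (k - 2) : ℕ) : ℝ) ≤ 1 * (k : ℝ) ^ 2
      have h1 : (k - 1) * (k - 2) ≤ k ^ 2 := by
        rw [sq]
        exact Nat.mul_le_mul (Nat.sub_le _ _) (Nat.sub_le _ _)
      rw [one_mul]
      exact_mod_cast h1) (fun k hk => by
      show (((k - 1) * (k - 2) : ℕ) : ℝ) * Qx x ^ 2 ≤ _
      rcases Nat.lt_or_ge k 3 with h1 | h1
      · have : (k - 1) * (k - 2) = 0 := by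
          interval_cases k <;> rfl
        rw [this]
        simp only [Nat.cast_zero, zero_mul]
        positivity
      · have hk3 : (3 : ℝ) ≤ k := by exact_mod_cast h1
        have e : (((k - 1) * (k - 2) : ℕ) : ℝ) = ((k : ℝ) - 1) * ((k : ℝ) - 2) := by
          rw [Nat.cast_mul, Nat.cast_sub hk, Nat.cast_sub (by omega : 2 ≤ k)]
          norm_num
        rw [e, sub_zero]
        have hpos : 0 ≤ k * Qx x - EE := by
          unfold EE
          nlinarith
        rw [max_eq_right hpos]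
        have key : (k * Qx x - EE) ^ 2 - ((k : ℝ) - 1) * ((k : ℝ) - 2) * Qx x ^ 2 =
            k * Qx x * (3 * Qx x - 2 * EE) + EE ^ 2 - 2 * Qx x ^ 2 := by ring
        have h5 : 0 ≤ k * Qx x * (3 * Qx x - 2 * EE) + EE ^ 2 - 2 * Qx x ^ 2 := by
          have h6 : 0 ≤ 3 * Qx x - 2 * EE := by unfold EE; linarith
          have h7 : 3 * Qx x * (3 * Qx x - 2 * EE) ≤ k * Qx x * (3 * Qx x - 2 * EE) := by
            apply mul_le_mul_of_nonneg_right _ h6
            nlinarith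
          have h8 : 0 ≤ 3 * Qx x * (3 * Qx x - 2 * EE) + EE ^ 2 - 2 * Qx x ^ 2 := by
            unfold EE
            nlinarith [sq_nonneg (7 * Qx x - 1037 * 3 / 1000)]
          linarith
        linarith) δ hδ
  refine ⟨T1, fun T hT r hr0 hr => ?_⟩
  refine (hT1 T hT r hr0 hr).trans (le_of_eq ?_)
  rw [zero_pow two_ne_zero, add_zero]

end TC
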