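import Pool.Agent.W198.TC.Stms2
import Pool.Agent.H343R2.ZeroSide

open Complex Filter Topology Set MeasureTheory

namespace TC

/-- the ordinates of the zeros of `ζ` with ordinate in `(U1, U2]` -/
noncomputable def ordz (U1 U2 : ℝ) : Finset ℝ := (H370.Zf riemannZeta U1 U2).image Complex.im

/-- the ordinates of the zeros of `ζ` with ordinate in `(0, T]` -/
noncomputable def ordT (T : ℝ) : Finset ℝ := (H343.ZSide.Z0 T).image Complex.im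

/-- multiplicity of `1/2 + i g` as a zero of `ζ` -/
noncomputable def mu (g : ℝ) : ℕ := H370.mult riemannZeta (1 / 2 + g * I)

/-- EFR: the explicit formula on RH -/
def S_EFR : Prop := RiemannHypothesis → ∃ C T0 : ℝ, 0 < C ∧ 10 ≤ T0 ∧ ∀ T : ℝ, T0 ≤ T →
  ∃ U1 U2 : ℝ, T ≤ U1 ∧ U1 ≤ T + 1 ∧ 2 * T - 1 ≤ U2 ∧ U2 ≤ 2 * T ∧ EFD C T (ordz U1 U2) mu

/-- GLOB: from dyadic blocks to `(0, T]` -/
def S_GLOB : Prop := RiemannHypothesis → ∀ (Φ : ℕ → ℝ) (x K A : ℝ), 0 ≤ x → 0 ≤ K → 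
  (∀ k, 0 ≤ Φ k) → Monotone Φ → (∀ k : ℕ, Φ k ≤ A * k ^ 2) → BlockBound Φ x K →
  ∀ δ : ℝ, 0 < δ → ∃ T1 : ℝ, ∀ T : ℝ, T1 ≤ T → ∀ r : ℝ, 0 ≤ r → r * Real.log T ≤ x →
    ∑ g ∈ ordT T, (mu g : ℝ) * Φ (kk (ordT T) mu r g) ≤
      T * Real.log T / (2 * Real.pi) * (K + δ)

end TC
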